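import Pool.Agent.L7h18.BP.Eng

/-!
# Project BP: from first and second moments to a positive proportion of the classes (CSW)
-/

set_option autoImplicit false
set_option linter.all false

open Finset

namespace Pool.Agent.L7h28.BP

open Pool.Agent.L7h18.BP

set_option maxHeartbeats 2000000 in
open Classical in
theorem s_CSW : S_CSW := by
  intro T K Ω w P A ρ κ₂ hT hK hw hA hρ hκ htot h1 h2
  have hT0 : (0 : ℝ) < T := by exact_mod_cast hT
  have hK0 : (0 : ℝ) < K := by exact_mod_cast hK
  have hκ0 : 0 < κ₂ := by linarith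
  -- number of hits of a class
  set N : Fin T → ℕ → ℝ := fun g n => (((univ : Finset (Fin K)).filter (fun i => P g i n)).card : ℝ)
    with hN
  have hNsum : ∀ g n, N g n = ∑ i : Fin K, (if P g i n then (1 : ℝ) else 0) := by
    intro g n
    simp [hN, Finset.sum_boole]
  set M : Fin T → ℝ := fun g => ∑ n ∈ Ω.filter (fun n => ∃ i, P g i n), w n with hM
  -- first moment
  have hfirst : ∀ g, ρ / 2 * A ≤ ∑ n ∈ Ω, w n * N g n := by
    intro g
    have e : ∑ n ∈ Ω, w n * N g n = ∑ i : Fin K, ∑ n ∈ Ω.filter (fun n => P g i n), w n := by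
      simp_rw [hNsum, Finset.mul_sum]
      rw [Finset.sum_comm]
      refine Finset.sum_congr rfl fun i _ => ?_
      rw [Finset.sum_filter]
      refine Finset.sum_congr rfl fun n _ => ?_
      split_ifs <;> simp
    rw [e]
    calc ρ / 2 * A = ∑ i : Fin K, (1 / 2) * (ρ / K) * A := by
          simp only [Finset.sum_const, Finset.card_univ, Fintype.card_fin, nsmul_eq_mul]
          field_simp
      _ ≤ _ := Finset.sum_le_sum fun i _ => (h1 g i).1
  -- second moment
  have hsecond : ∀ g, ∑ n ∈ Ω, w n * (N g n) ^ 2 ≤ (3 * κ₂) * ρ * A := by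
    intro g
    have e : ∑ n ∈ Ω, w n * (N g n) ^ 2 =
        ∑ i : Fin K, ∑ j : Fin K, ∑ n ∈ Ω.filter (fun n => P g i n ∧ P g j n), w n := by
      have e1 : ∀ n, w n * (N g n) ^ 2 =
          ∑ i : Fin K, ∑ j : Fin K, (if P g i n ∧ P g j n then w n else 0) := by
        intro n
        rw [hNsum, sq, Finset.sum_mul_sum, Finset.mul_sum]
        refine Finset.sum_congr rfl fun i _ => ?_
        rw [Finset.mul_sum]
        refine Finset.sum_congr rfl fun j _ => ?_
        by_cases hi : P g i n <;> by_cases hj : P g j n <;> simp [hi, hj]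
      simp_rw [e1]
      rw [Finset.sum_comm]
      refine Finset.sum_congr rfl fun i _ => ?_
      rw [Finset.sum_comm]
      refine Finset.sum_congr rfl fun j _ => ?_
      rw [Finset.sum_filter]
    rw [e]
    have hb : ∀ i j : Fin K, ∑ n ∈ Ω.filter (fun n => P g i n ∧ P g j n), w n ≤
        (if i = j then 2 * (ρ / K) * A else 0) + κ₂ * (ρ / K ^ 2) * A := by
      intro i j
      have hpos : 0 ≤ κ₂ * (ρ / K ^ 2) * A := by positivity
      by_cases hij : i = j
      · subst hij
        simp only [and_self, if_true]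
        have := (h1 g i).2
        linarith
      · simp only [hij, if_false]
        have := h2 g i j hij
        linarith
    calc _ ≤ ∑ i : Fin K, ∑ j : Fin K, ((if i = j then 2 * (ρ / K) * A else 0) +
            κ₂ * (ρ / K ^ 2) * A) :=
          Finset.sum_le_sum fun i _ => Finset.sum_le_sum fun j _ => hb i j
      _ = (2 + κ₂) * ρ * A := by
          simp only [Finset.sum_add_distrib, Finset.sum_ite_eq, Finset.mem_univ, if_true,
            Finset.sum_const, Finset.card_univ, Fintype.card_fin, nsmul_eq_mul]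
          field_simp
      _ ≤ (3 * κ₂) * ρ * A := by
          have : 2 + κ₂ ≤ 3 * κ₂ := by linarith
          gcongr
  -- Cauchy-Schwarz
  have hMnn : ∀ g, 0 ≤ M g := fun g =>
    Finset.sum_nonneg fun n hn => hw n (Finset.mem_filter.1 hn).1
  have hCS : ∀ g, (∑ n ∈ Ω, w n * N g n) ^ 2 ≤ M g * ∑ n ∈ Ω, w n * (N g n) ^ 2 := by
    intro g
    have e1 : ∑ n ∈ Ω, w n * N g n = ∑ n ∈ Ω.filter (fun n => ∃ i, P g i n), w n * N g n := by
      rw [Finset.sum_filter]
      refine Finset.sum_congr rfl fun n _ => ?_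
      split_ifs with h
      · rfl
      · have : N g n = 0 := by
          simp only [hN, Nat.cast_eq_zero, Finset.card_eq_zero]
          refine Finset.filter_eq_empty_iff.2 ?_
          intro i _ hi
          exact h ⟨i, hi⟩
        rw [this, mul_zero]
    have e2 : ∑ n ∈ Ω.filter (fun n => ∃ i, P g i n), w n * (N g n) ^ 2 ≤
        ∑ n ∈ Ω, w n * (N g n) ^ 2 := by
      refine Finset.sum_le_sum_of_subset_of_nonneg (Finset.filter_subset _ _) ?_
      intro n hn _
      exact mul_nonneg (hw n hn) (sq_nonneg _)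
    rw [e1]
    refine le_trans ?_ (mul_le_mul_of_nonneg_left e2 (hMnn g))
    have := Finset.sum_mul_sq_le_sq_mul_sq (Ω.filter (fun n => ∃ i, P g i n))
      (fun n => Real.sqrt (w n)) (fun n => Real.sqrt (w n) * N g n)
    have hs1 : ∀ n ∈ Ω.filter (fun n => ∃ i, P g i n), Real.sqrt (w n) * Real.sqrt (w n) = w n :=
      fun n hn => Real.mul_self_sqrt (hw n (Finset.mem_filter.1 hn).1)
    have f1 : ∑ n ∈ Ω.filter (fun n => ∃ i, P g i n), Real.sqrt (w n) * (Real.sqrt (w n) * N g n) =
        ∑ n ∈ Ω.filter (fun n => ∃ i, P g i n), w n * N g n := by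
      refine Finset.sum_congr rfl fun n hn => ?_
      rw [← mul_assoc, hs1 n hn]
    have f2 : ∑ n ∈ Ω.filter (fun n => ∃ i, P g i n), Real.sqrt (w n) ^ 2 = M g := by
      refine Finset.sum_congr rfl fun n hn => ?_
      rw [sq, hs1 n hn]
    have f3 : ∑ n ∈ Ω.filter (fun n => ∃ i, P g i n), (Real.sqrt (w n) * N g n) ^ 2 =
        ∑ n ∈ Ω.filter (fun n => ∃ i, P g i n), w n * N g n ^ 2 := by
      refine Finset.sum_congr rfl fun n hn => ?_
      rw [mul_pow, sq (Real.sqrt (w n)), hs1 n hn]
    rw [f1, f2, f3] at this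
    exact this
  -- mass of each class
  obtain ⟨σ, hσ⟩ : ∃ σ : ℝ, σ = ρ / (24 * κ₂) := ⟨_, rfl⟩
  have hσ0 : 0 < σ := by rw [hσ]; positivity
  have hMg : ∀ g, 2 * σ * A ≤ M g := by
    intro g
    have a1 := hfirst g
    have a2 := hsecond g
    have a3 := hCS g
    have a4 : (ρ / 2 * A) ^ 2 ≤ (∑ n ∈ Ω, w n * N g n) ^ 2 :=
      pow_le_pow_left₀ (by positivity) a1 _
    have a5 : (ρ / 2 * A) ^ 2 ≤ M g * ((3 * κ₂) * ρ * A) :=
      a4.trans (a3.trans (mul_le_mul_of_nonneg_left a2 (hMnn g)))
    have hpos : 0 < (3 * κ₂) * ρ * A := by positivity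
    have a6 : (2 * σ * A) * ((3 * κ₂) * ρ * A) ≤ M g * ((3 * κ₂) * ρ * A) := by
      refine le_trans (le_of_eq ?_) a5
      rw [hσ]
      field_simp
      norm_num
    exact le_of_mul_le_mul_right a6 hpos
  -- number of classes
  set Y : ℕ → ℝ := fun n => (((univ : Finset (Fin T)).filter (fun g => ∃ i, P g i n)).card : ℝ) with hY
  have hYsum : ∑ n ∈ Ω, w n * (Y n : ℝ) = ∑ g, M g := by
    have e1 : ∀ n, w n * (Y n : ℝ) = ∑ g : Fin T, (if ∃ i, P g i n then w n else 0) := by
      intro n
      rw [← Finset.sum_filter, Finset.sum_const, nsmul_eq_mul, mul_comm]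
    simp_rw [e1]
    rw [Finset.sum_comm]
    refine Finset.sum_congr rfl fun g _ => ?_
    exact (Finset.sum_filter _ _).symm
  have hlow : 2 * σ * A * T ≤ ∑ n ∈ Ω, w n * (Y n : ℝ) := by
    rw [hYsum]
    calc 2 * σ * A * T = ∑ g : Fin T, 2 * σ * A := by
          simp only [Finset.sum_const, Finset.card_univ, Fintype.card_fin, nsmul_eq_mul]
          ring
      _ ≤ _ := Finset.sum_le_sum fun g _ => hMg g
  have hYle : ∀ n, Y n ≤ T := by
    intro n
    have : ((univ : Finset (Fin T)).filter (fun g => ∃ i, P g i n)).card ≤ T := by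
      refine (Finset.card_filter_le _ _).trans ?_
      simp
    have h9 : (((univ : Finset (Fin T)).filter (fun g => ∃ i, P g i n)).card : ℝ) ≤ T := by
      exact_mod_cast this
    exact h9
  have hr : ρ / (48 * κ₂) = σ / 2 := by rw [hσ]; field_simp; norm_num
  rw [hr, ← hσ]
  have hsplit : ∑ n ∈ Ω, w n * (Y n : ℝ) ≤
      T * ∑ n ∈ Ω.filter (fun n => σ / 2 * T ≤ Y n), w n + σ / 2 * T * ∑ n ∈ Ω, w n := by
    rw [← Finset.sum_filter_add_sum_filter_not Ω (fun n => σ / 2 * T ≤ Y n)]
    apply add_le_add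
    · rw [Finset.mul_sum]
      refine Finset.sum_le_sum fun n hn => ?_
      rw [mul_comm]
      exact mul_le_mul_of_nonneg_right (hYle n) (hw n (Finset.mem_filter.1 hn).1)
    · rw [Finset.mul_sum]
      refine le_trans (Finset.sum_le_sum (f := fun n => w n * (Y n : ℝ))
        (g := fun n => σ / 2 * T * w n) fun n hn => ?_)
        (Finset.sum_le_sum_of_subset_of_nonneg (Finset.filter_subset _ _) ?_)
      · have h4 : Y n < σ / 2 * T := not_le.1 (Finset.mem_filter.1 hn).2
        show w n * (Y n : ℝ) ≤ σ / 2 * T * w n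
        rw [mul_comm]
        exact mul_le_mul_of_nonneg_right h4.le (hw n (Finset.mem_filter.1 hn).1)
      · intro n hn _
        exact mul_nonneg (by positivity) (hw n hn)
  have h7 : σ / 2 * T * ∑ n ∈ Ω, w n ≤ σ / 2 * T * (2 * A) :=
    mul_le_mul_of_nonneg_left htot (by positivity)
  have h8 : σ * A * T ≤ T * ∑ n ∈ Ω.filter (fun n => σ / 2 * T ≤ Y n), w n := by
    have h9 := hlow.trans hsplit
    nlinarith
  have h9 : T * (σ * A) ≤ T * ∑ n ∈ Ω.filter (fun n => σ / 2 * T ≤ Y n), w n := by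
    rw [mul_comm]; exact h8
  exact le_of_mul_le_mul_left h9 hT0

end Pool.Agent.L7h28.BP
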