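import Pool.Agent.L7h18.BP.Eng
import Pool.Agent.W67.HR.MT

/-!
# Project BP: the coloured Maynard-Tao theorem in windows (MTW), from `S_WTW` and `S_CSW`
-/

set_option autoImplicit false
set_option linter.all false

open Finset

namespace Pool.Agent.L7h28.BP

open Pool.Agent.H361R2.PP
open Pool.Agent.W70.HR (Bw rU)
open Pool.Agent.W67.HR (rU_le rU_zero)
open Pool.Agent.L7h18.BP

theorem s_MTW (hWT : S_WTW) (hCS : S_CSW) : S_MTW := by
  classical
  intro ϑ c₀ hϑ0 hϑ1 hc₀ T hT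
  have hT0 : (0 : ℝ) < (T : ℝ) := by exact_mod_cast hT
  obtain ⟨K, hK, hW⟩ := hWT T ϑ c₀ hT hϑ0 hϑ1 hc₀
  have hK0 : (0 : ℝ) < K := by exact_mod_cast hK
  refine ⟨K, hK, ?_⟩
  intro Λ N₁ hΛ
  obtain ⟨δ, hδ, hδ8, M₀, K', A', X₀, hM₀, hX⟩ := hW Λ N₁ hΛ
  refine ⟨δ, c₀ * ϑ / 384 / M₀, hδ, hδ8, by positivity, K', A', max X₀ 1, ?_⟩
  intro X hXX ω hω b hb
  have hX1 : 1 ≤ X := le_trans (le_max_right _ _) hXX
  obtain ⟨hV, hR, hB⟩ := hX X (le_trans (le_max_left _ _) hXX) ω hω b hb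
  refine ⟨hV, hR, ?_⟩
  intro H hH hinj
  have hWm := Pool.Agent.W67.HR.Wm_pos X b hb
  have hH0 : 0 < ω.H := hω.1.1
  obtain ⟨ρ, hρd⟩ : ∃ ρ : ℝ, ρ = ω.P * Real.log X / ω.H := ⟨_, rfl⟩
  have hρ : c₀ ≤ ρ := by
    rw [hρd, le_div_iff₀ hH0]
    exact hω.2
  have hρ0 : 0 < ρ := by linarith
  set B : Finset ℕ := (univ : Finset (Fin T × Fin K)).image (fun x => H x.1 x.2) with hBdef
  have hBsub : B ⊆ Bw Λ X b := by
    intro a ha
    rw [hBdef, Finset.mem_image] at ha
    obtain ⟨x, _, rfl⟩ := ha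
    exact hH x.1 x.2
  have hBcard : B.card = T * K := by
    rw [hBdef, Finset.card_image_of_injective _ hinj]
    simp
  have hmem : ∀ g i, H g i ∈ B := fun g i => by
    rw [hBdef, Finset.mem_image]
    exact ⟨(g, i), Finset.mem_univ _, rfl⟩
  obtain ⟨w, A, hw, hOm, hsum, h1, h2⟩ := hB B hBsub hBcard
  rw [← hρd] at h1 h2
  have hOmpos : 0 < WOm ω δ X (T * K) := by
    unfold WOm
    positivity
  have hA : 0 < A := lt_of_lt_of_le hOmpos hOm
  have hSP : ∀ a, WP ω X b a = (WI ω X b).filter (fun n => (n + a).Prime) := by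
    intro a
    unfold WP WI
    rw [Finset.filter_filter]
  have hκ : (1 : ℝ) ≤ 16 / ϑ := by
    rw [le_div_iff₀ hϑ0]; linarith
  have hcs := hCS T K (WI ω X b) w (fun g i n => (n + H g i).Prime) A ρ (16 / ϑ) hT hK
    (fun n hn => (hw n hn).1) hA hρ0 hκ hsum
    (by
      intro g i
      have := h1 (H g i) (hmem g i)
      rw [hSP] at this
      convert this using 4)
    (by
      intro g i j hij
      have hne : H g i ≠ H g j := by
        intro he
        have := @hinj (g, i) (g, j) he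
        exact hij (Prod.ext_iff.mp this).2
      have := h2 (H g i) (hmem g i) (H g j) (hmem g j) hne
      rw [hSP, Finset.filter_filter] at this
      convert this using 4)
  -- upper bound of the sum by the number of hits
  have hub : ∑ n ∈ (WI ω X b).filter (fun n =>
      c₀ * ϑ / 800 * T ≤ (((univ : Finset (Fin T)).filter (fun g => ∃ i, (n + H g i).Prime)).card : ℝ)), w n ≤
      M₀ * (hitsW ω δ (c₀ * ϑ / 800) X b T K H : ℝ) := by
    have e1 : ∑ n ∈ (WI ω X b).filter (fun n =>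
        c₀ * ϑ / 800 * T ≤ (((univ : Finset (Fin T)).filter (fun g => ∃ i, (n + H g i).Prime)).card : ℝ)), w n ≤
        ∑ n ∈ (WI ω X b).filter (fun n =>
        c₀ * ϑ / 800 * T ≤ (((univ : Finset (Fin T)).filter (fun g => ∃ i, (n + H g i).Prime)).card : ℝ)),
          (if (∀ g i, rg (P1 (HH X) (JJ δ X)) (H g i) n = 1) then M₀ else 0) := by
      apply Finset.sum_le_sum
      intro n hn
      have hnS := (Finset.mem_filter.mp hn).1
      have hwn := (hw n hnS).2
      split_ifs with hr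
      · calc w n ≤ M₀ * rU δ X B n := hwn
          _ ≤ M₀ * 1 := mul_le_mul_of_nonneg_left (rU_le δ X B n) hM₀.le
          _ = M₀ := mul_one _
      · have : rU δ X B n = 0 := by
          apply rU_zero
          intro hall
          exact hr (fun g i => hall _ (hmem g i))
        rw [this, mul_zero] at hwn
        exact hwn
    refine le_trans e1 ?_
    rw [← Finset.sum_filter, Finset.sum_const, nsmul_eq_mul, mul_comm]
    apply le_of_eq
    congr 2
    unfold hitsW
    rw [Finset.filter_filter]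
    congr 1
    ext n
    simp only [Finset.mem_filter]
    tauto
  have hsub : ∑ n ∈ (WI ω X b).filter (fun n =>
      ρ / (48 * (16 / ϑ)) * T ≤ (((univ : Finset (Fin T)).filter (fun g => ∃ i, (n + H g i).Prime)).card : ℝ)), w n ≤
      ∑ n ∈ (WI ω X b).filter (fun n =>
      c₀ * ϑ / 800 * T ≤ (((univ : Finset (Fin T)).filter (fun g => ∃ i, (n + H g i).Prime)).card : ℝ)), w n := by
    refine Finset.sum_le_sum_of_subset_of_nonneg ?_ (fun n hn _ => (hw n (Finset.mem_filter.1 hn).1).1)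
    intro n hn
    rw [Finset.mem_filter] at hn ⊢
    refine ⟨hn.1, le_trans ?_ hn.2⟩
    apply mul_le_mul_of_nonneg_right _ hT0.le
    have e : ρ / (48 * (16 / ϑ)) = ρ * ϑ / 768 := by field_simp; norm_num
    rw [e]
    have : c₀ * ϑ ≤ ρ * ϑ := mul_le_mul_of_nonneg_right hρ hϑ0.le
    have h0 : 0 ≤ c₀ * ϑ := by positivity
    linarith
  have hcs' : ρ / (24 * (16 / ϑ)) * A ≤ M₀ * (hitsW ω δ (c₀ * ϑ / 800) X b T K H : ℝ) := by
    refine le_trans (le_of_le_of_eq hcs (Finset.sum_congr ?_ (fun _ _ => rfl))) (hsub.trans hub)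
    ext n
    simp only [Finset.mem_filter]
    refine and_congr_right (fun _ => ?_)
    constructor
    · intro h
      convert h using 3
      ext g
      simp only [Finset.mem_filter]
    · intro h
      convert h using 3
      ext g
      simp only [Finset.mem_filter]
  have e2 : c₀ * ϑ / 384 ≤ ρ / (24 * (16 / ϑ)) := by
    have e : ρ / (24 * (16 / ϑ)) = ρ * ϑ / 384 := by field_simp; norm_num
    rw [e]
    have : c₀ * ϑ ≤ ρ * ϑ := mul_le_mul_of_nonneg_right hρ hϑ0.le
    linarith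
  calc c₀ * ϑ / 384 / M₀ * WOm ω δ X (T * K) ≤ c₀ * ϑ / 384 / M₀ * A :=
        mul_le_mul_of_nonneg_left hOm (by positivity)
    _ = (c₀ * ϑ / 384 * A) / M₀ := by ring
    _ ≤ (ρ / (24 * (16 / ϑ)) * A) / M₀ := by gcongr
    _ ≤ (M₀ * (hitsW ω δ (c₀ * ϑ / 800) X b T K H : ℝ)) / M₀ := by gcongr
    _ = (hitsW ω δ (c₀ * ϑ / 800) X b T K H : ℝ) := by field_simp

end Pool.Agent.L7h28.BP
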