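import Pool.Agent.L7h28.BP.WtwA
import Pool.Agent.W70.HR.Wt

/-! Project BP, part WTW: good weights in windows. Adapted from `Pool/Agent/W70/HR/Wt.lean`. -/

set_option autoImplicit false
set_option linter.all false

open Finset

namespace Pool.Agent.L7h28.BP

open Pool.Agent.H361R2.PP
open Pool.Agent.W70.HR (Bw rU xh qh Fam S_PT ZB sumq rU_nonneg mem_Bw1 WW_bound)
open Pool.Agent.L7h18.BP
open Pool.Agent.H410R2.AC (wt GG cfg term WW pos Inj coef)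

/-- the hypothesis on a window is monotone in the two exponents -/
theorem Hyp_mono {K A K₁ A₁ : ℕ} {ϑ Λ c₀ : ℝ} {X : ℕ} {ω : Wd} (hK : K₁ ≤ K) (hA : A₁ ≤ A)
    (hL : 1 ≤ Real.log X) (h : Hyp K A ϑ Λ c₀ X ω) : Hyp K₁ A₁ ϑ Λ c₀ X ω := by
  obtain ⟨⟨hH, hP, hQ, hcl⟩, hc⟩ := h
  have hW : (0 : ℝ) < Wm X := by exact_mod_cast Pool.Agent.H361R2.PP.Wm_pos X
  have key : ∀ Er : Finset ℕ → ℝ, (∀ D, 0 ≤ Er D) →
      ∑ D ∈ (PX X).powerset.filter (fun D : Finset ℕ => ∏ p ∈ D, (p : ℝ) ≤ (X : ℝ) ^ ϑ),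
        (K : ℝ) ^ D.card * Er D ≤ ω.H / Wm X / Real.log X ^ A →
      ∑ D ∈ (PX X).powerset.filter (fun D : Finset ℕ => ∏ p ∈ D, (p : ℝ) ≤ (X : ℝ) ^ ϑ),
        (K₁ : ℝ) ^ D.card * Er D ≤ ω.H / Wm X / Real.log X ^ A₁ := by
    intro Er hE h1
    calc _ ≤ ∑ D ∈ (PX X).powerset.filter (fun D : Finset ℕ => ∏ p ∈ D, (p : ℝ) ≤ (X : ℝ) ^ ϑ),
        (K : ℝ) ^ D.card * Er D := by
          refine sum_le_sum fun D _ => ?_
          apply mul_le_mul_of_nonneg_right _ (hE D)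
          exact pow_le_pow_left₀ (Nat.cast_nonneg _) (by exact_mod_cast hK) _
      _ ≤ ω.H / Wm X / Real.log X ^ A := h1
      _ ≤ _ := by
          apply div_le_div_of_nonneg_left (by positivity) (by positivity)
          exact pow_le_pow_right₀ hL hA
  refine ⟨⟨hH, hP, hQ, fun b hb => ?_⟩, hc⟩
  obtain ⟨⟨Er, hE1, hE2⟩, h2⟩ := hcl b hb
  refine ⟨⟨Er, hE1, key Er hE1.2.1 hE2⟩, fun a₀ ha₀ => ?_⟩
  obtain ⟨Er', hE1', hE2'⟩ := h2 a₀ ha₀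
  exact ⟨Er', hE1', key Er' hE1'.2.1 hE2'⟩

/-- the rough sums, from `S_MLW` with trivial families -/
theorem rough_ofw (hML : S_MLW) (Λ ϑ c₀ : ℝ) (N : ℕ) (hΛ : 0 < Λ) (hϑ : 0 < ϑ) (hϑ1 : ϑ ≤ 1 / 2)
    (hc : 0 < c₀) : ∃ (K A : ℕ) (δ₀ : ℝ), 0 < δ₀ ∧ ∀ δ : ℝ, 0 < δ →
    δ ≤ δ₀ → ∃ X₀ : ℕ, ∀ X : ℕ, X₀ ≤ X → ∀ ω : Wd, Hyp K A ϑ Λ c₀ X ω → ∀ b : ℕ, b < Wm X →
    ∀ U ⊆ Bw Λ X b, U.card ≤ N → ∑ n ∈ WI ω X b, rU δ X U n ≤ 2 * WOm ω δ X U.card := by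
  classical
  obtain ⟨K, A, δ₀, h0, h⟩ := hML N 0 Λ ϑ (ϑ / 16) 1 c₀ hΛ hϑ hϑ1 (by positivity) le_rfl one_pos hc
  refine ⟨K, A, δ₀, h0, fun δ hδ hδ0 => ?_⟩
  obtain ⟨X₀, h1⟩ := h δ hδ hδ0
  refine ⟨X₀, fun X hX ω hω b hb U hU hN => ?_⟩
  have hF : ∀ a ∈ U, (0 : ℝ) ≤ (fun _ : ℕ => (0 : ℝ)) a ∧
      Fam δ X ((fun _ : ℕ => (0 : ℝ)) a) ((fun _ : ℕ => ({∅} : Finset (Finset ℕ))) a) := by
    intro a _
    refine ⟨le_rfl, ?_⟩
    intro R hR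
    simp only [mem_singleton] at hR
    subst hR
    simp
  have h2 := (h1 X hX ω hω b hb U hU hN (fun _ => {∅}) (fun _ => {∅}) (fun _ => 0) (fun _ => 0) hF hF
    (by simp; linarith) (Or.inl fun _ _ => rfl)).1
  have hFS : ∀ a n, FS ({∅} : Finset (Finset ℕ)) a n = 1 := by
    intro a n
    unfold FS
    simp [wt]
  have hGG : GG ({∅} : Finset (Finset ℕ)) = 1 := by
    unfold GG
    simp [wt]
  simp only [hFS, hGG, prod_const_one, mul_one, pow_zero, one_mul, implies_true, if_true] at h2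
  have h3 := (abs_le.1 h2).2
  linarith

theorem wtw_of (hML : S_MLW) (hSM : S_SMW) (hPT : S_PT) (hPAR : S_PARW) (hCol : Col) (hCob : Cob)
    (hMni : Mni) (hWtx : Wtx) : S_WTW := by
  intro T ϑ c₀ hT hϑ0 hϑ1 hc₀
  obtain ⟨σ, hσ⟩ : ∃ σ : ℝ, σ = 1 / 10 := ⟨_, rfl⟩
  have hσ0 : 0 < σ := by rw [hσ]; norm_num
  obtain ⟨θ, t, K, u, β, hθ0, hθ, hK, hub, hβ1, hu, δa, hδa, hpar⟩ := hPAR T σ ϑ hT hσ0 hϑ0 hϑ1
  have hK0 : (0 : ℝ) < K := by exact_mod_cast hK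
  refine ⟨K, hK, fun Λ N₁ hΛ => ?_⟩
  obtain ⟨K1, A1, δb, hδb, hsm⟩ := hSM (T * K) 2 t u β Λ ϑ θ σ c₀ hub hβ1 hu hΛ hϑ0 hϑ1 hθ0 hθ hσ0 hc₀
  obtain ⟨K2, A2, δc, hδc, hrough⟩ := rough_ofw hML Λ ϑ c₀ N₁ hΛ hϑ0 hϑ1 hc₀
  obtain ⟨δ, hδ⟩ : ∃ δ : ℝ, δ = min (min δa δb) (min δc (1 / 8)) := ⟨_, rfl⟩
  have hδ0 : 0 < δ := by rw [hδ]; positivity
  have h1 : δ ≤ δa := by rw [hδ]; exact (min_le_left _ _).trans (min_le_left _ _)
  have h2 : δ ≤ δb := by rw [hδ]; exact (min_le_left _ _).trans (min_le_right _ _)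
  have h3 : δ ≤ δc := by rw [hδ]; exact (min_le_right _ _).trans (min_le_left _ _)
  have h4 : δ ≤ 1 / 8 := by rw [hδ]; exact (min_le_right _ _).trans (min_le_right _ _)
  obtain ⟨Xa, hpar⟩ := hpar δ hδ0 h1
  obtain ⟨Xb, hsm⟩ := hsm δ hδ0 h2
  obtain ⟨Xc, hrough⟩ := hrough δ hδ0 h3
  obtain ⟨M₁, hM₁, Xd, hpt⟩ := hPT Λ δ hΛ hδ0 h4
  obtain ⟨Xe, hwtx⟩ := hWtx.2 δ hδ0 (by linarith)
  obtain ⟨Q, hQ⟩ : ∃ Q : ℝ, Q = 1 + (1 / δ) ^ 2 * M₁ := ⟨_, rfl⟩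
  have hQ1 : 1 ≤ Q := by
    rw [hQ]
    have : 0 ≤ (1 / δ) ^ 2 * M₁ := by positivity
    linarith
  obtain ⟨M₀, hM₀⟩ : ∃ M₀ : ℝ, M₀ = ((((T * K : ℕ) : ℝ) + 1) ^ t * Q ^ t) ^ 2 := ⟨_, rfl⟩
  have hM₀0 : 0 < M₀ := by rw [hM₀]; positivity
  refine ⟨δ, hδ0, h4, M₀, max K1 K2, max A1 A2, Xa + Xb + Xc + Xd + Xe + 3, hM₀0, ?_⟩
  intro X hX ω hω b hb
  have hX1 : 1 ≤ X := by omega
  have hX3 : (3 : ℝ) ≤ X := by exact_mod_cast (by omega : 3 ≤ X)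
  have hL1 : 1 ≤ Real.log X := by
    rw [Real.le_log_iff_exp_le (by linarith)]
    have := Real.exp_one_lt_d9
    linarith
  have hω1 : Hyp K1 A1 ϑ Λ c₀ X ω := Hyp_mono (le_max_left _ _) (le_max_left _ _) hL1 hω
  have hω2 : Hyp K2 A2 ϑ Λ c₀ X ω := Hyp_mono (le_max_right _ _) (le_max_right _ _) hL1 hω
  have hH0 : 0 < ω.H := hω.1.1
  obtain ⟨S, γ, hFam, hS0, hSd, hSG, hγ0, hγ1, hV, hvn, hγμ, hη, hq, hG1, hG2⟩ := hpar X (by omega)
  have hPJ : 2 ^ 2 ^ JJ δ X ≤ X := by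
    have h5 := (hwtx X (by omega)).1
    have h6 : (X : ℝ) ^ δ ≤ (X : ℝ) ^ (1 : ℝ) := by
      apply Real.rpow_le_rpow_of_exponent_le _ (by linarith)
      exact_mod_cast hX1
    rw [Real.rpow_one] at h6
    have h7 := h5.trans h6
    exact_mod_cast h7
  have hSMb : SMb ω ϑ Λ δ θ σ γ X b (T * K) β S := by
    intro U hU hN B hB c hc
    exact hsm X (by omega) ω hω1 b hb S hFam hS0 hSd hSG γ hγ0 hγ1 U hU hN B hB c hc
  have hst : Wst ω ϑ Λ δ θ σ σ γ X b (T * K) β S :=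
    { sm := hSMb
      s0 := hσ0.le
      γ0 := hγ0
      β0 := fun τ => (hub τ).2.le
      β1 := hβ1
      gg := hSG
      hS := fun τ R hR => (hFam τ R hR).1
      η0 := hσ0.le
      hη := fun τ => by
        have := hη τ
        push_cast
        exact this
      hq := hq
      pJ := hPJ
      v0 := hV
      hX := hX1
      g1 := hG1
      h0 := hH0
      p0 := hω.1.2.1
      l0 := by linarith
      sub := hω.1.2.2.1 }
  refine ⟨hV, fun U hU hN => hrough X (by omega) ω hω2 b hb U hU hN, fun B hBs hB => ?_⟩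
  have hZ := (mni_of hMni hst hB).1
  have hOm := Om_pos hst (T * K)
  obtain ⟨A, hA⟩ : ∃ A : ℝ, A = WOm ω δ X (T * K) * ZB γ β S B := ⟨_, rfl⟩
  have hA0 : 0 < A := by rw [hA]; positivity
  obtain ⟨ρ, hρ⟩ : ∃ ρ : ℝ, ρ = ω.P * Real.log X / ω.H := ⟨_, rfl⟩
  have hρ0 : 0 < ρ := by
    rw [hρ]
    have h5 := hω.2
    have h6 : 0 < c₀ * ω.H := by positivity
    exact div_pos (by linarith) hH0
  have hvw : vw ω δ X = ρ * vn δ X := by rw [hρ]; rfl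
  have hvw1 : vw ω δ X * (1 + γ) ^ 2 = ρ / K := by
    rw [hvw, mul_assoc, hγμ]; ring
  have hρK : 0 < ρ / K := by positivity
  rw [← hρ]
  refine ⟨ww δ γ X β S B, A, fun n hn => ⟨ww_nonneg B n, ?_⟩, ?_, ?_, fun a ha => ?_,
    fun a ha a' ha' hne => ?_⟩
  · have hn' : n ∈ SI X b := by
      unfold WI at hn
      rw [mem_filter] at hn
      have h5 := mem_Ico.1 (hω.1.2.2.1 hn.1)
      rw [mem_SI]
      exact ⟨h5.1, h5.2, hn.2⟩
    have hW : |WW B (fun _ => 1) (xh γ β S n)| ≤ (((T * K : ℕ) : ℝ) + 1) ^ t * Q ^ t := by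
      have := WW_bound (t := t) (B := B) (x := xh γ β S n) hQ1 (by
        intro τ a ha
        have ha' := hBs ha
        have haΛ : (a : ℝ) ≤ Λ * Real.log X := by
          have h5 : a ≤ ⌊Λ * Real.log X⌋₊ := (mem_BB.1 ha').2.1
          have h6 : 0 ≤ Λ * Real.log X := by
            have : 0 ≤ Real.log X := Real.log_nonneg (by exact_mod_cast hX1)
            positivity
          exact (Nat.le_floor_iff h6).1 h5
        have h5 := hpt X (by omega) b n a hn' (mem_Bw1 ha') haΛ (S τ) (fun R hR => (hFam τ R hR).1)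
        unfold xh
        have hg := hSG τ
        have hβ := hub τ
        have hβ1' : β τ ≤ 1 := by
          rw [← hβ1]
          exact single_le_sum (f := β) (fun τ _ => (hub τ).2.le) (mem_univ τ)
        have hbg : 0 ≤ β τ / GG (S τ) := div_nonneg hβ.2.le (by linarith)
        rw [abs_mul, abs_mul, abs_of_nonneg hγ0, abs_of_nonneg hbg]
        have h6 : β τ / GG (S τ) ≤ 1 := by
          rw [div_le_one (by linarith)]
          linarith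
        have h7 : γ ≤ (1 / δ) ^ 2 := by linarith
        have h8 : β τ / GG (S τ) * |FS (S τ) a n| ≤ M₁ := by
          calc β τ / GG (S τ) * |FS (S τ) a n| ≤ 1 * M₁ := by
                apply mul_le_mul h6 h5 (abs_nonneg _) zero_le_one
            _ = M₁ := one_mul _
        calc γ * (β τ / GG (S τ) * |FS (S τ) a n|) ≤ (1 / δ) ^ 2 * M₁ := by
              apply mul_le_mul h7 h8 _ (by positivity)
              exact mul_nonneg hbg (abs_nonneg _)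
          _ ≤ Q := by rw [hQ]; linarith)
      rw [hB] at this
      exact this
    unfold ww
    rw [mul_comm]
    apply mul_le_mul_of_nonneg_right _ (rU_nonneg B n)
    rw [hM₀, ← sq_abs]
    exact pow_le_pow_left₀ (abs_nonneg _) hW 2
  · rw [hA]
    nlinarith
  · refine (W1 hMni hst hB hBs).trans ?_
    rw [← hA]
    apply mul_le_mul_of_nonneg_right _ hA0.le
    rw [hσ]; norm_num
  · obtain ⟨h5, h6⟩ := W2 hCol hCob hMni hst hB hBs ha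
    rw [hvw1, ← hA] at h5 h6
    have h7 : 0 < ρ / K * A := by positivity
    constructor
    · refine le_trans ?_ h5
      rw [mul_assoc]
      apply mul_le_mul_of_nonneg_right _ h7.le
      rw [hσ]; norm_num
    · refine h6.trans ?_
      rw [mul_assoc 2]
      apply mul_le_mul_of_nonneg_right _ h7.le
      rw [hσ]; norm_num
  · refine (W3 hCol hCob hMni hst hB hBs ha ha' hne).trans ?_
    rw [← hA]
    have h5 : vw ω δ X * (1 / GG (Sp ϑ δ θ X)) * (1 + γ) ^ 4 ≤ (8 / ϑ) * (ρ / K ^ 2) := by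
      rw [hvw]
      calc ρ * vn δ X * (1 / GG (Sp ϑ δ θ X)) * (1 + γ) ^ 4 ≤
          ρ * vn δ X * ((8 / ϑ) * vn δ X) * (1 + γ) ^ 4 := by
            apply mul_le_mul_of_nonneg_right _ (by positivity)
            exact mul_le_mul_of_nonneg_left hG2 (by positivity)
        _ = (8 / ϑ) * (ρ * (vn δ X * (1 + γ) ^ 2) ^ 2) := by ring
        _ = _ := by rw [hγμ]; ring
    have h6 : 0 < (8 / ϑ) * (ρ / K ^ 2) * A := by positivity
    calc (1 + σ) * (vw ω δ X * (1 / GG (Sp ϑ δ θ X)) * (1 + γ) ^ 4 * A) ≤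
        (1 + σ) * ((8 / ϑ) * (ρ / K ^ 2) * A) := by
          apply mul_le_mul_of_nonneg_left _ (by linarith)
          exact mul_le_mul_of_nonneg_right h5 hA0.le
      _ ≤ 2 * ((8 / ϑ) * (ρ / K ^ 2) * A) := by
          apply mul_le_mul_of_nonneg_right _ h6.le
          rw [hσ]; norm_num
      _ = (16 / ϑ) * (ρ / K ^ 2) * A := by ring

/-- **WTW** from `S_MLW` and `S_SMW` -/
theorem s_WTW (hML : S_MLW) (hSM : S_SMW) : S_WTW :=
  wtw_of hML hSM Pool.Agent.W70.HR.pt s_PARW Pool.Agent.H872R2.PPCol.col Pool.Agent.H872R2.PPCol.cob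
    Pool.Agent.H433R2.PPMni.mni Pool.Agent.H325R2.wtx

end Pool.Agent.L7h28.BP
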