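import Pool.Agent.L7h28.BP.Mlw
import Pool.Agent.L7h28.BP.Smw
import Pool.Agent.L7h28.BP.Wtw
import Pool.Agent.L7h28.BP.Csw
import Pool.Agent.L7h28.BP.Mtw

/-! Project BP: the coloured Maynard-Tao theorem in windows, without hypotheses. -/

set_option autoImplicit false

namespace Pool.Agent.L7h28.BP

theorem wtw : Pool.Agent.L7h18.BP.S_WTW := s_WTW s_MLW (s_SMW s_MLW)

theorem mtw : Pool.Agent.L7h18.BP.S_MTW := s_MTW wtw s_CSW

end Pool.Agent.L7h28.BP
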