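import Pool.Agent.L7h18.BP.Gen
import Pool.Agent.L7h97.BP.Cla
import Pool.Agent.H373R2.T7.Crt

/-!
# Project BP, part ALT: one prime and almost primes, right order of magnitude
-/

set_option autoImplicit false
set_option linter.all false

open Finset Filter

namespace Pool.Agent.L7h28.BP

open Pool.Agent.H361R2.PP
open Pool.Agent.H410R2.AC (wt GG cfg term WW pos Inj coef)
open Pool.Agent.W70.HR (Bw rU xh qh Fam S_MLA S_PT S_MV)
open Pool.Agent.L7h18.BP

/-! ### the number of the classes -/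

/-- the primes up to `z` -/
def prs (z : ℕ) : Finset ℕ := (range (z + 1)).filter Nat.Prime

lemma prs_prime {z p : ℕ} (h : p ∈ prs z) : p.Prime := (mem_filter.1 h).2

lemma primorial_eq (z : ℕ) : primorial z = ∏ p ∈ prs z, p := rfl

lemma local_ge_one {H : Finset ℕ} (hA : Adm H) {p : ℕ} (hp : p.Prime) :
    1 ≤ ((range p).filter (fun a => ∀ h ∈ H, ¬ p ∣ a + h)).card := by
  obtain ⟨a, ha⟩ := hA p hp
  rw [Nat.one_le_iff_ne_zero, Ne, card_eq_zero, ← Ne, ← nonempty_iff_ne_empty]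
  refine ⟨a % p, ?_⟩
  rw [mem_filter, mem_range]
  refine ⟨Nat.mod_lt _ hp.pos, fun h hh hd => ha h hh ?_⟩
  rw [Nat.dvd_iff_mod_eq_zero] at hd ⊢
  rwa [Nat.mod_add_mod] at hd

lemma local_ge_sub (H : Finset ℕ) {p : ℕ} (hp : p.Prime) :
    p ≤ ((range p).filter (fun a => ∀ h ∈ H, ¬ p ∣ a + h)).card + H.card := by
  classical
  have h1 : range p ⊆ (range p).filter (fun a => ∀ h ∈ H, ¬ p ∣ a + h) ∪
      H.image (fun h => (p - h % p) % p) := by
    intro a ha
    rw [mem_union, mem_filter]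
    by_cases h : ∀ h ∈ H, ¬ p ∣ a + h
    · exact Or.inl ⟨ha, h⟩
    · right
      push Not at h
      obtain ⟨h, hh, hd⟩ := h
      rw [mem_image]
      refine ⟨h, hh, ?_⟩
      rw [mem_range] at ha
      have hm := Nat.mod_lt h hp.pos
      have h2 : p ∣ a + h % p := by
        rw [Nat.dvd_iff_mod_eq_zero] at hd ⊢
        rwa [Nat.add_mod_mod]
      obtain ⟨c, hc⟩ := h2
      have hc2 : c < 2 := by
        by_contra h3
        push Not at h3
        have : p * 2 ≤ p * c := Nat.mul_le_mul_left _ h3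
        omega
      interval_cases c
      · have h4 : h % p = 0 := by omega
        have h5 : a = 0 := by omega
        rw [h4, Nat.sub_zero, Nat.mod_self, h5]
      · rw [Nat.mod_eq_of_lt (by omega)]
        omega
  have h2 := card_le_card h1
  rw [card_range] at h2
  refine h2.trans ((card_union_le _ _).trans ?_)
  exact Nat.add_le_add_left card_image_le _

lemma local_bound {H : Finset ℕ} (hA : Adm H) {p : ℕ} (hp : p.Prime) :
    (p : ℝ) * (1 - 1 / (p : ℝ)) ^ H.card *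
      Real.exp (-((8 * (H.card : ℝ) ^ 3 + 2 * (H.card : ℝ) ^ 2) * (1 / (p : ℝ) ^ 2))) ≤
      (((range p).filter (fun a => ∀ h ∈ H, ¬ p ∣ a + h)).card : ℝ) := by
  have hp2 : (2 : ℝ) ≤ p := by exact_mod_cast hp.two_le
  have hp0 : (0 : ℝ) < p := by linarith
  obtain ⟨k, hk⟩ : ∃ k : ℕ, k = H.card := ⟨_, rfl⟩
  rw [← hk]
  have hq0 : 0 ≤ 1 - 1 / (p : ℝ) := by
    have : 1 / (p : ℝ) ≤ 1 := by rw [div_le_one hp0]; linarith
    linarith
  have hq1 : 1 - 1 / (p : ℝ) ≤ 1 := by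
    have : 0 ≤ 1 / (p : ℝ) := by positivity
    linarith
  have hM : (0 : ℝ) ≤ 8 * (k : ℝ) ^ 3 + 2 * (k : ℝ) ^ 2 := by positivity
  rcases Nat.lt_or_ge p (2 * k) with h | h
  · -- small primes
    have h1 : (1 : ℝ) ≤ (((range p).filter (fun a => ∀ h ∈ H, ¬ p ∣ a + h)).card : ℝ) := by
      exact_mod_cast local_ge_one hA hp
    refine le_trans ?_ h1
    have h2 : Real.exp (-((8 * (k : ℝ) ^ 3 + 2 * (k : ℝ) ^ 2) * (1 / (p : ℝ) ^ 2))) ≤ (p : ℝ)⁻¹ := by
      rw [← Real.exp_log (inv_pos.2 hp0), Real.log_inv, Real.exp_le_exp, neg_le_neg_iff]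
      have h3 : Real.log p ≤ p := (Real.log_le_sub_one_of_pos hp0).trans (by linarith)
      refine h3.trans ?_
      rw [mul_one_div, le_div_iff₀ (by positivity)]
      have h4 : (p : ℝ) ≤ 2 * k := by exact_mod_cast h.le
      have h5 : (p : ℝ) ^ 3 ≤ (2 * (k : ℝ)) ^ 3 := pow_le_pow_left₀ hp0.le h4 3
      nlinarith [sq_nonneg (k : ℝ)]
    calc (p : ℝ) * (1 - 1 / (p : ℝ)) ^ k * Real.exp (-((8 * (k : ℝ) ^ 3 + 2 * (k : ℝ) ^ 2) * (1 / (p : ℝ) ^ 2)))
        ≤ (p : ℝ) * 1 * (p : ℝ)⁻¹ := by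
          apply mul_le_mul _ h2 (Real.exp_pos _).le (by positivity)
          exact mul_le_mul_of_nonneg_left (pow_le_one₀ hq0 hq1) hp0.le
      _ = 1 := by field_simp
  · have h1 : (p : ℝ) - k ≤ (((range p).filter (fun a => ∀ h ∈ H, ¬ p ∣ a + h)).card : ℝ) := by
      have h2 := local_ge_sub H hp
      rw [← hk] at h2
      have h3 : (p : ℝ) ≤ (((range p).filter (fun a => ∀ h ∈ H, ¬ p ∣ a + h)).card : ℝ) + k := by
        exact_mod_cast h2
      linarith
    refine le_trans ?_ h1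
    have hkp : 2 * (k : ℝ) ≤ p := by exact_mod_cast h
    obtain ⟨x, hx⟩ : ∃ x : ℝ, x = k / p := ⟨_, rfl⟩
    have hx0 : 0 ≤ x := by rw [hx]; positivity
    have hx2 : x ≤ 1 / 2 := by
      rw [hx, div_le_div_iff₀ hp0 (by norm_num)]
      linarith
    have h3 : Real.exp (-(x + 2 * x ^ 2)) ≤ 1 - x := by
      have h4 : 0 < 1 - x := by linarith
      have h5 := Real.add_one_le_exp (x / (1 - x))
      have h6 : x / (1 - x) + 1 = 1 / (1 - x) := by field_simp; ring
      have h7 : x / (1 - x) ≤ x + 2 * x ^ 2 := by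
        rw [div_le_iff₀ h4]
        nlinarith [mul_nonneg hx0 hx0, mul_nonneg (mul_nonneg hx0 hx0) (by linarith : 0 ≤ 1 - 2 * x)]
      rw [h6] at h5
      have h8 : 1 / (1 - x) ≤ Real.exp (x + 2 * x ^ 2) := h5.trans (Real.exp_le_exp.2 h7)
      rw [Real.exp_neg, inv_le_comm₀ (Real.exp_pos _) h4, ← one_div]
      exact h8
    have h9 : (1 - 1 / (p : ℝ)) ^ k ≤ Real.exp (-x) := by
      have h10 : 1 - 1 / (p : ℝ) ≤ Real.exp (-(1 / (p : ℝ))) := by
        have := Real.add_one_le_exp (-(1 / (p : ℝ)))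
        linarith
      calc (1 - 1 / (p : ℝ)) ^ k ≤ Real.exp (-(1 / (p : ℝ))) ^ k := pow_le_pow_left₀ hq0 h10 k
        _ = Real.exp (-x) := by
            rw [← Real.exp_nat_mul]
            congr 1
            rw [hx]
            ring
    have h11 : Real.exp (-((8 * (k : ℝ) ^ 3 + 2 * (k : ℝ) ^ 2) * (1 / (p : ℝ) ^ 2))) ≤ Real.exp (-(2 * x ^ 2)) := by
      apply Real.exp_le_exp.2
      rw [neg_le_neg_iff, hx, div_pow]
      have h12 : 2 * ((k : ℝ) ^ 2 / (p : ℝ) ^ 2) = (2 * (k : ℝ) ^ 2) * (1 / (p : ℝ) ^ 2) := by ring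
      rw [h12]
      apply mul_le_mul_of_nonneg_right _ (by positivity)
      have : (0 : ℝ) ≤ 8 * (k : ℝ) ^ 3 := by positivity
      linarith
    calc (p : ℝ) * (1 - 1 / (p : ℝ)) ^ k * Real.exp (-((8 * (k : ℝ) ^ 3 + 2 * (k : ℝ) ^ 2) * (1 / (p : ℝ) ^ 2)))
        ≤ (p : ℝ) * Real.exp (-x) * Real.exp (-(2 * x ^ 2)) := by
          apply mul_le_mul _ h11 (Real.exp_pos _).le (by positivity)
          exact mul_le_mul_of_nonneg_left h9 hp0.le
      _ = (p : ℝ) * Real.exp (-(x + 2 * x ^ 2)) := by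
          rw [mul_assoc, ← Real.exp_add]
          congr 2
          ring
      _ ≤ (p : ℝ) * (1 - x) := mul_le_mul_of_nonneg_left h3 hp0.le
      _ = (p : ℝ) - k := by
          rw [hx]
          field_simp

/-- the number of the classes modulo the primorial that avoid `0` at all the shifts -/
theorem cls_count {H : Finset ℕ} (hA : Adm H) : ∃ c : ℝ, 0 < c ∧ ∀ z : ℕ,
    c * ((primorial z : ℝ) * ((Nat.totient (primorial z) : ℝ) / (primorial z : ℝ)) ^ H.card) ≤
      (((range (primorial z)).filter (fun b => ∀ h ∈ H, (b + h).Coprime (primorial z))).card : ℝ) := by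
  classical
  obtain ⟨M, hM⟩ : ∃ M : ℝ, M = 8 * (H.card : ℝ) ^ 3 + 2 * (H.card : ℝ) ^ 2 := ⟨_, rfl⟩
  have hM0 : 0 ≤ M := by rw [hM]; positivity
  have hsum : Summable (fun n : ℕ => 1 / (n : ℝ) ^ 2) := Real.summable_one_div_nat_pow.2 (by norm_num)
  refine ⟨Real.exp (-(M * ∑' n : ℕ, 1 / (n : ℝ) ^ 2)), Real.exp_pos _, fun z => ?_⟩
  have hpr : ∀ p ∈ prs z, p.Prime := fun p hp => prs_prime hp
  have hcrt := Pool.Agent.H373R2.T7.crt_card (fun p a => ∀ h ∈ H, ¬ p ∣ a + h) (prs z) hpr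
  have h1 : (range (primorial z)).filter (fun b => ∀ h ∈ H, (b + h).Coprime (primorial z)) =
      (range (∏ p ∈ prs z, p)).filter (fun n => ∀ p ∈ prs z, ∀ h ∈ H, ¬ p ∣ n % p + h) := by
    rw [← primorial_eq]
    apply filter_congr
    intro n _
    constructor
    · intro h p hp j hj hd
      have h2 : p ∣ n + j := by
        rw [Nat.dvd_iff_mod_eq_zero] at hd ⊢
        rwa [Nat.mod_add_mod] at hd
      have h3 : p ∣ primorial z := by
        rw [primorial_eq]
        exact dvd_prod_of_mem (fun p => p) hp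
      exact Nat.not_coprime_of_dvd_of_dvd (hpr p hp).one_lt h2 h3 (h j hj)
    · intro h j hj
      rw [primorial_eq]
      refine Nat.Coprime.prod_right fun p hp => ?_
      refine ((Nat.Prime.coprime_iff_not_dvd (hpr p hp)).2 fun hd => h p hp j hj ?_).symm
      rw [Nat.dvd_iff_mod_eq_zero] at hd ⊢
      rwa [Nat.mod_add_mod]
  rw [h1, hcrt]
  have hphi : ((Nat.totient (primorial z) : ℝ) / (primorial z : ℝ)) = ∏ p ∈ prs z, (1 - 1 / (p : ℝ)) := by
    rw [primorial_eq, Pool.Agent.H373R2.T7.totient_prod _ hpr]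
    push_cast
    rw [← prod_div_distrib]
    refine prod_congr rfl fun p hp => ?_
    have := (hpr p hp).one_lt
    have h2 : (p : ℝ) ≠ 0 := by exact_mod_cast (hpr p hp).ne_zero
    rw [Nat.cast_sub this.le]
    push_cast
    field_simp
  rw [hphi, primorial_eq, ← prod_pow]
  push_cast
  rw [← prod_mul_distrib]
  have h2 : Real.exp (-(M * ∑' n : ℕ, 1 / (n : ℝ) ^ 2)) ≤ ∏ p ∈ prs z, Real.exp (-(M * (1 / (p : ℝ) ^ 2))) := by
    rw [← Real.exp_sum, Real.exp_le_exp, sum_neg_distrib, neg_le_neg_iff, ← mul_sum]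
    apply mul_le_mul_of_nonneg_left _ hM0
    exact hsum.sum_le_tsum _ (fun n _ => by positivity)
  have h3 : ∀ p ∈ prs z, 0 ≤ (p : ℝ) * (1 - 1 / (p : ℝ)) ^ H.card := by
    intro p hp
    have h4 : (1 : ℝ) ≤ p := by exact_mod_cast (hpr p hp).one_lt.le
    have h5 : 1 / (p : ℝ) ≤ 1 := by rw [div_le_one (by linarith)]; exact h4
    have h6 : 0 ≤ 1 - 1 / (p : ℝ) := by linarith
    positivity
  calc Real.exp (-(M * ∑' n : ℕ, 1 / (n : ℝ) ^ 2)) * ∏ p ∈ prs z, (p : ℝ) * (1 - 1 / (p : ℝ)) ^ H.card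
      ≤ (∏ p ∈ prs z, Real.exp (-(M * (1 / (p : ℝ) ^ 2)))) * ∏ p ∈ prs z, (p : ℝ) * (1 - 1 / (p : ℝ)) ^ H.card :=
        mul_le_mul_of_nonneg_right h2 (prod_nonneg h3)
    _ = ∏ p ∈ prs z, (p : ℝ) * (1 - 1 / (p : ℝ)) ^ H.card * Real.exp (-(M * (1 / (p : ℝ) ^ 2))) := by
        rw [← prod_mul_distrib]
        exact prod_congr rfl fun p _ => by ring
    _ ≤ _ := by
        refine prod_le_prod (fun p hp => mul_nonneg (h3 p hp) (Real.exp_pos _).le) fun p hp => ?_
        rw [hM]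
        exact local_bound hA (hpr p hp)

/-! ### the size of the sifting limit -/

lemma JJ_gt (δ : ℝ) (X : ℕ) (hX : 1 ≤ ⌊(X : ℝ) ^ δ⌋₊) : (X : ℝ) ^ δ < ((2 ^ 2 ^ JJ δ X : ℕ) : ℝ) ^ 2 := by
  obtain ⟨m, hm⟩ : ∃ m : ℕ, m = ⌊(X : ℝ) ^ δ⌋₊ := ⟨_, rfl⟩
  have h1 : Nat.log 2 m < 2 ^ (JJ δ X + 1) := by
    unfold JJ
    rw [← hm]
    exact Nat.lt_pow_succ_log_self (by norm_num) _
  have h2 : m < 2 ^ (2 ^ (JJ δ X + 1)) := by
    have h3 : m < 2 ^ (Nat.log 2 m + 1) := Nat.lt_pow_succ_log_self (by norm_num) _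
    exact h3.trans_le (Nat.pow_le_pow_right (by norm_num) h1)
  have h4 : m + 1 ≤ (2 ^ 2 ^ JJ δ X) ^ 2 := by
    rw [← pow_mul, ← pow_succ]
    exact h2
  have h5 := Nat.lt_floor_add_one ((X : ℝ) ^ δ)
  rw [← hm] at h5
  have h6 : ((m : ℝ) + 1) ≤ ((2 ^ 2 ^ JJ δ X : ℕ) : ℝ) ^ 2 := by exact_mod_cast h4
  linarith

/-- small powers are below the sifting limit -/
lemma pow_lt_JJ {δ : ℝ} (hδ : 0 < δ) {X n : ℕ} (hX : 4 ≤ X) (hn : n < 2 * X) :
    (n : ℝ) ^ (δ / 3) < ((2 ^ 2 ^ JJ δ X : ℕ) : ℝ) := by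
  have hXr : (4 : ℝ) ≤ X := by exact_mod_cast hX
  have hX0 : (0 : ℝ) < X := by linarith
  have h1 : 1 ≤ ⌊(X : ℝ) ^ δ⌋₊ := by
    apply Nat.le_floor
    push_cast
    exact Real.one_le_rpow (by linarith) hδ.le
  have h2 := JJ_gt δ X h1
  have h3 : (n : ℝ) ≤ 2 * X := by exact_mod_cast hn.le
  have h4 : ((n : ℝ) ^ (δ / 3)) ^ 2 ≤ (X : ℝ) ^ δ := by
    calc ((n : ℝ) ^ (δ / 3)) ^ 2 ≤ ((2 * (X : ℝ)) ^ (δ / 3)) ^ 2 := by
          apply pow_le_pow_left₀ (by positivity)
          exact Real.rpow_le_rpow (Nat.cast_nonneg _) h3 (by positivity)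
      _ ≤ (((X : ℝ) ^ (3 / 2 : ℝ)) ^ (δ / 3)) ^ 2 := by
          apply pow_le_pow_left₀ (by positivity)
          apply Real.rpow_le_rpow (by positivity) _ (by positivity)
          have h5 : (X : ℝ) ^ (3 / 2 : ℝ) = X * √(X : ℝ) := by
            rw [Real.sqrt_eq_rpow, ← Real.rpow_one_add' hX0.le (by norm_num)]
            norm_num
          have h6 : (2 : ℝ) ≤ √(X : ℝ) := by
            apply Real.le_sqrt_of_sq_le
            linarith
          rw [h5]
          nlinarith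
      _ = (X : ℝ) ^ δ := by
          rw [← Real.rpow_natCast, ← Real.rpow_mul hX0.le, ← Real.rpow_mul hX0.le]
          congr 1
          push_cast
          ring
  have h7 : ((n : ℝ) ^ (δ / 3)) ^ 2 < ((2 ^ 2 ^ JJ δ X : ℕ) : ℝ) ^ 2 := h4.trans_lt h2
  exact lt_of_pow_lt_pow_left₀ 2 (by positivity) h7

/-! ### the theorem -/

lemma rU_ind (δ : ℝ) (X : ℕ) (U : Finset ℕ) (n : ℕ)
    [Decidable (∀ a ∈ U, ∀ p ∈ P1 (HH X) (JJ δ X), ¬ p ∣ n + a)] :
    rU δ X U n = if ∀ a ∈ U, ∀ p ∈ P1 (HH X) (JJ δ X), ¬ p ∣ n + a then 1 else 0 := by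
  classical
  unfold rU rg
  by_cases h : ∀ a ∈ U, ∀ p ∈ P1 (HH X) (JJ δ X), ¬ p ∣ n + a
  · rw [if_pos h]
    exact prod_eq_one fun a ha => if_pos (h a ha)
  · rw [if_neg h]
    push Not at h
    obtain ⟨a, ha, p, hp, hd⟩ := h
    apply prod_eq_zero ha
    rw [if_neg]
    intro h2
    exact h2 p hp hd

theorem s_ALT (hMLW : S_MLW) : S_ALT := by
  classical
  intro ϑ c₀ H h₀ hϑ hϑ2 hc₀ hH1 hh₀ hA
  obtain ⟨K, A, δ₀, hδ₀, hM⟩ := hMLW H.card 0 1 ϑ (ϑ / 16) (1 / 2) c₀ one_pos hϑ hϑ2 (by positivity)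
    le_rfl (by norm_num) hc₀
  obtain ⟨δ, hδdef⟩ : ∃ δ : ℝ, δ = min δ₀ (1 / 8) := ⟨_, rfl⟩
  have hδ : 0 < δ := by rw [hδdef]; exact lt_min hδ₀ (by norm_num)
  have hδ1 : δ ≤ 1 / 8 := by rw [hδdef]; exact min_le_right _ _
  obtain ⟨X1, hX1⟩ := hM δ hδ (by rw [hδdef]; exact min_le_left _ _)
  obtain ⟨cv, hcv, hmv⟩ := Pool.Agent.L7h97.BP.mv
  obtain ⟨X2, hX2⟩ := hmv δ hδ (by linarith)
  obtain ⟨cH, hcH, hcount⟩ := cls_count hA
  have hlog := Pool.Agent.L7h97.BP.tendsto_log.eventually_ge_atTop (max 1 ((H.sup id : ℕ) : ℝ))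
  obtain ⟨X3, hX3⟩ := eventually_atTop.1 (hlog.and (eventually_ge_atTop 16))
  refine ⟨δ / 3, 1 / 2 * cH * cv ^ (H.card - 1) * c₀, K, A, max X1 (max X2 X3), by positivity, by positivity, ?_⟩
  intro X hX ω hω
  have hXa : X1 ≤ X := (le_max_left _ _).trans hX
  have hXb : X2 ≤ X := (le_max_left _ _).trans ((le_max_right _ _).trans hX)
  have hXc : X3 ≤ X := (le_max_right _ _).trans ((le_max_right _ _).trans hX)
  obtain ⟨hl, hX16⟩ := hX3 X hXc
  have hl1 : 1 ≤ Real.log X := (le_max_left _ _).trans hl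
  have hl0 : 0 < Real.log X := by linarith
  have hlH : ∀ h ∈ H, (h : ℝ) ≤ Real.log X := by
    intro h hh
    refine le_trans ?_ ((le_max_right _ _).trans hl)
    exact_mod_cast le_sup (f := id) hh
  obtain ⟨U, hU⟩ : ∃ U : Finset ℕ, U = H.erase h₀ := ⟨_, rfl⟩
  have hUc : U.card = H.card - 1 := by rw [hU, card_erase_of_mem hh₀]
  have hHc : 1 ≤ H.card := card_pos.2 ⟨h₀, hh₀⟩
  have hWpos : 0 < Wm X := primorial_pos _
  -- the target set
  obtain ⟨Tg, hTg⟩ : ∃ Tg : Finset ℕ, Tg = ω.Q.filter (fun n => (n + h₀).Prime ∧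
    ∀ h ∈ H, ∀ p : ℕ, p.Prime → p ∣ n + h → (n : ℝ) ^ (δ / 3) < p) := ⟨_, rfl⟩
  rw [← hTg]
  obtain ⟨Cl, hCl⟩ : ∃ Cl : Finset ℕ, Cl = (range (Wm X)).filter (fun b => ∀ h ∈ H, (b + h).Coprime (Wm X)) := ⟨_, rfl⟩
  -- one class
  have hone : ∀ b ∈ Cl, 1 / 2 * (ω.P / Nat.totient (Wm X) * VV δ X ^ (H.card - 1)) ≤
      ((Tg.filter (fun n => n % Wm X = b)).card : ℝ) := by
    intro b hb
    rw [hCl, mem_filter, mem_range] at hb
    have hmem : ∀ h ∈ H, h ∈ Bw 1 X b := by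
      intro h hh
      unfold Bw BB
      rw [mem_filter, mem_Icc]
      refine ⟨⟨hH1 h hh, ?_⟩, hb.2 h hh⟩
      apply Nat.le_floor
      rw [one_mul]
      exact hlH h hh
    have hUsub : U ⊆ Bw 1 X b := by
      intro a ha
      rw [hU] at ha
      exact hmem a (mem_of_mem_erase ha)
    have h1 := (hX1 X hXa ω hω b hb.1 U hUsub (by omega) (fun _ => {∅}) (fun _ => {∅}) (fun _ => 0) (fun _ => 0)
      (by
        intro a _
        refine ⟨le_rfl, fun R hR => ?_⟩
        rw [mem_singleton] at hR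
        subst hR
        simp)
      (by
        intro a _
        refine ⟨le_rfl, fun R hR => ?_⟩
        rw [mem_singleton] at hR
        subst hR
        simp)
      (by
        simp only [add_zero, sum_const_zero]
        linarith) (Or.inl fun _ _ => rfl)).2 h₀ (by
        have h5 : h₀ ∉ U := by
          rw [hU]
          exact notMem_erase _ _
        exact (@Finset.mem_sdiff _ _ _ _ _).2 ⟨hmem h₀ hh₀, h5⟩)
    have hGG : GG {∅} = 1 := by simp [GG, wt]
    have hFS : ∀ a n, FS {∅} a n = 1 := by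
      intro a n
      simp [FS, wt]
    simp only [hGG, hFS, prod_const_one, mul_one, implies_true, if_true, pow_zero] at h1
    have h2 := (abs_le.1 h1).1
    unfold WOmP at h2
    rw [hUc] at h2
    have h3 : ∑ n ∈ WP ω X b h₀, rU δ X U n ≤ ((Tg.filter (fun n => n % Wm X = b)).card : ℝ) := by
      simp only [rU_ind]
      rw [← sum_filter, sum_const, nsmul_eq_mul, mul_one]
      have h4 : ((WP ω X b h₀).filter (fun n => ∀ a ∈ U, ∀ p ∈ P1 (HH X) (JJ δ X), ¬ p ∣ n + a)).card ≤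
          (Tg.filter (fun n => n % Wm X = b)).card := by
        apply card_le_card
        intro n hn
        unfold WP at hn
        rw [mem_filter, mem_filter] at hn
        obtain ⟨⟨hnQ, hnb, hnp⟩, hnr⟩ := hn
        rw [mem_filter, hTg, mem_filter]
        have hnX := mem_Ico.1 (hω.1.2.2.1 hnQ)
        refine ⟨⟨hnQ, hnp, fun h hh p hp hpd => ?_⟩, hnb⟩
        have hn1 : (1 : ℝ) ≤ n := by exact_mod_cast (by omega : 1 ≤ n)
        by_cases hhe : h = h₀
        · subst hhe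
          have h5 : p = n + h := (Nat.prime_dvd_prime_iff_eq hp hnp).1 hpd
          rw [h5]
          have h6 : (n : ℝ) ^ (δ / 3) ≤ (n : ℝ) ^ (1 : ℝ) :=
            Real.rpow_le_rpow_of_exponent_le hn1 (by linarith)
          rw [Real.rpow_one] at h6
          have h7 := hH1 h hh
          push_cast
          have h8 : (1 : ℝ) ≤ h := by exact_mod_cast h7
          linarith
        · have hhU : h ∈ U := by
            rw [hU, mem_erase]
            exact ⟨hhe, hh⟩
          have h5 : 2 ^ 2 ^ JJ δ X ≤ p := by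
            by_contra hlt
            push Not at hlt
            rcases Nat.lt_or_ge (HH X) p with h6 | h6
            · apply hnr h hhU p _ hpd
              unfold P1
              rw [mem_filter, mem_range]
              exact ⟨hlt, hp, h6⟩
            · have h7 : p ∣ Wm X := by
                unfold Wm
                rw [primorial_eq]
                apply dvd_prod_of_mem (fun p => p)
                unfold prs
                rw [mem_filter, mem_range]
                exact ⟨by omega, hp⟩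
              have h8 : p ∣ b + h := by
                rw [← hnb]
                have h9 : n % Wm X % p = n % p := Nat.mod_mod_of_dvd n h7
                rw [Nat.dvd_iff_mod_eq_zero] at hpd ⊢
                rw [Nat.add_mod, h9, ← Nat.add_mod]
                exact hpd
              exact Nat.not_coprime_of_dvd_of_dvd hp.one_lt h8 h7 (hb.2 h hh)
          calc (n : ℝ) ^ (δ / 3) < ((2 ^ 2 ^ JJ δ X : ℕ) : ℝ) := pow_lt_JJ hδ (by omega) hnX.2
            _ ≤ p := by exact_mod_cast h5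
      exact_mod_cast h4
    linarith
  -- the sum over the classes
  have hsum : (Cl.card : ℝ) * (1 / 2 * (ω.P / Nat.totient (Wm X) * VV δ X ^ (H.card - 1))) ≤ (Tg.card : ℝ) := by
    rw [← nsmul_eq_mul, ← sum_const]
    refine (sum_le_sum hone).trans ?_
    rw [← Nat.cast_sum]
    have h1 : ∑ b ∈ Cl, (Tg.filter (fun n => n % Wm X = b)).card ≤ Tg.card := by
      have h2 : ∑ b ∈ range (Wm X), (Tg.filter (fun n => n % Wm X = b)).card = Tg.card :=
        (card_eq_sum_card_fiberwise (fun n _ => mem_coe.2 (mem_range.2 (Nat.mod_lt _ hWpos)))).symm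
      rw [← h2]
      apply sum_le_sum_of_subset
      rw [hCl]
      exact filter_subset _ _
    exact_mod_cast h1
  refine le_trans ?_ hsum
  -- the final computation
  have hφ : (0 : ℝ) < Nat.totient (Wm X) := by exact_mod_cast Nat.totient_pos.2 hWpos
  have hW : (0 : ℝ) < Wm X := by exact_mod_cast hWpos
  have hCc : cH * ((Wm X : ℝ) * ((Nat.totient (Wm X) : ℝ) / (Wm X : ℝ)) ^ H.card) ≤ (Cl.card : ℝ) := by
    rw [hCl]
    exact hcount (HH X)
  have hVV : cv * ((Wm X : ℝ) / Nat.totient (Wm X)) / Real.log X ≤ VV δ X := by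
    have h1 := hX2 X hXb
    rw [div_le_iff₀ hl0]
    have h2 : VV δ X * ((Nat.totient (Wm X) : ℝ) / Wm X) * (δ * Real.log X) * ((Wm X : ℝ) / Nat.totient (Wm X)) =
        δ * (VV δ X * Real.log X) := by field_simp
    have h3 : cv * ((Wm X : ℝ) / Nat.totient (Wm X)) ≤ δ * (VV δ X * Real.log X) := by
      rw [← h2]
      exact mul_le_mul_of_nonneg_right h1 (by positivity)
    have h4 : 0 ≤ VV δ X * Real.log X := by
      have h5 : 0 < cv * ((Wm X : ℝ) / Nat.totient (Wm X)) := by positivity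
      nlinarith
    nlinarith
  have hP : c₀ * ω.H / Real.log X ≤ ω.P := by
    rw [div_le_iff₀ hl0]
    exact hω.2
  have hP0 : 0 ≤ ω.P := hω.1.2.1
  have hH0 : 0 < ω.H := hω.1.1
  obtain ⟨r, hr⟩ : ∃ r : ℝ, r = (Nat.totient (Wm X) : ℝ) / (Wm X : ℝ) := ⟨_, rfl⟩
  have hr0 : 0 < r := by rw [hr]; positivity
  have hrinv : (Wm X : ℝ) / Nat.totient (Wm X) = r⁻¹ := by rw [hr, inv_div]
  rw [hrinv] at hVV
  rw [← hr] at hCc
  obtain ⟨k, hk⟩ : ∃ k : ℕ, H.card = k + 1 := ⟨H.card - 1, by omega⟩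
  rw [hk] at hCc ⊢
  simp only [Nat.add_sub_cancel]
  have hV0 : 0 ≤ cv * r⁻¹ / Real.log X := by positivity
  have hVk : (cv * r⁻¹ / Real.log X) ^ k ≤ VV δ X ^ k := pow_le_pow_left₀ hV0 hVV k
  calc 1 / 2 * cH * cv ^ k * c₀ * ω.H / Real.log X ^ (k + 1)
      = 1 / 2 * cH * (cv / Real.log X) ^ k * (c₀ * ω.H / Real.log X) := by
        rw [div_pow, pow_succ]
        field_simp
    _ ≤ 1 / 2 * cH * (cv / Real.log X) ^ k * ω.P := mul_le_mul_of_nonneg_left hP (by positivity)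
    _ = (cH * ((Wm X : ℝ) * r ^ (k + 1))) * (1 / 2 * (ω.P / Nat.totient (Wm X) * (cv * r⁻¹ / Real.log X) ^ k)) := by
        have e1 : (cv * r⁻¹ / Real.log X) ^ k = (cv / Real.log X) ^ k * (r⁻¹) ^ k := by
          rw [← mul_pow]
          congr 1
          ring
        have e2 : (Wm X : ℝ) * r = Nat.totient (Wm X) := by
          rw [hr]
          field_simp
        have e3 : r ^ k * (r⁻¹) ^ k = 1 := by
          rw [← mul_pow, mul_inv_cancel₀ hr0.ne', one_pow]
        rw [e1]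
        calc 1 / 2 * cH * (cv / Real.log X) ^ k * ω.P
            = 1 / 2 * cH * (cv / Real.log X) ^ k * ω.P * (r ^ k * (r⁻¹) ^ k) := by rw [e3, mul_one]
          _ = (cH * (((Wm X : ℝ) * r) * r ^ k)) * (1 / 2 * (ω.P / ((Wm X : ℝ) * r) * ((cv / Real.log X) ^ k * (r⁻¹) ^ k))) := by
              have h5 : (Wm X : ℝ) * r ≠ 0 := by positivity
              generalize (Wm X : ℝ) * r = y at h5
              field_simp
          _ = _ := by
              rw [e2, pow_succ]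
              rw [← e2]
              ring
    _ ≤ (Cl.card : ℝ) * (1 / 2 * (ω.P / Nat.totient (Wm X) * VV δ X ^ k)) := by
        apply mul_le_mul hCc _ (by positivity) (Nat.cast_nonneg _)
        apply mul_le_mul_of_nonneg_left _ (by norm_num)
        exact mul_le_mul_of_nonneg_left hVk (by positivity)

end Pool.Agent.L7h28.BP
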