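import Pool.Agent.L7h18.BP.Eng
import Pool.Agent.W327.HR.Mlb
import Pool.Agent.W70.HR.Asm0

/-!
# Project BP, part MLW: asymptotic form of the correlations in windows

Adapted from `Pool/Agent/W327/HR/Mlb.lean`.
-/

set_option autoImplicit false
set_option linter.all false

open Finset Filter Topology

namespace Pool.Agent.L7h28.BP

open Pool.Agent.H361R2.PP
open Pool.Agent.H410R2
open Pool.Agent.H862R2.PPSm5
open Pool.Agent.W70.HR (Bw rU xh qh Fam S_MLA S_PT S_MV)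
open W327.HR (MBody mbody Bw_mem gv arith)
open Pool.Agent.L7h18.BP
open Pool.Agent.H410R2.AC (wt GG cfg term WW pos Inj coef)

/-- elements of a family with small products -/
theorem fam_subw {ϑ δ x : ℝ} {X : ℕ} (hX : 16 ≤ X) {R : Finset ℕ} (hx : x ≤ ϑ)
    (hR : R ⊆ P2 (JJ δ X) X) (hl : Real.log (∏ p ∈ R, (p : ℝ)) ≤ x * Real.log X) :
    R ⊆ P2 (JJ δ X) ⌊(X : ℝ) ^ ϑ⌋₊ ∧ (∏ p ∈ R, (p : ℝ)) ≤ (X : ℝ) ^ x := by
  have hXr : (16 : ℝ) ≤ X := by exact_mod_cast hX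
  have hX0 : (0 : ℝ) < X := by linarith
  have hX1 : (1 : ℝ) ≤ X := by linarith
  have hpos : (0 : ℝ) < ∏ p ∈ R, (p : ℝ) := Finset.prod_pos fun p hp => by
    exact_mod_cast (Finset.mem_filter.1 (hR hp)).2.1.pos
  have hprod : (∏ p ∈ R, (p : ℝ)) ≤ (X : ℝ) ^ x := by
    rw [← Real.log_rpow hX0, Real.log_le_log_iff hpos (by positivity)] at hl
    exact hl
  refine ⟨?_, hprod⟩
  intro p hp
  have h1 := Finset.mem_filter.1 (hR hp)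
  unfold P2
  rw [Finset.mem_filter, Finset.mem_range]
  refine ⟨?_, h1.2⟩
  have h2 : p ≤ ∏ q ∈ R, q := mem_le_prod (fun q hq => (Finset.mem_filter.1 (hR hq)).2.1.one_le) hp
  have h3 : (p : ℝ) ≤ (X : ℝ) ^ ϑ := by
    have h5 : (p : ℝ) ≤ ∏ q ∈ R, (q : ℝ) := by
      have h6 : (p : ℝ) ≤ ((∏ q ∈ R, q : ℕ) : ℝ) := Nat.cast_le.2 h2
      rwa [Nat.cast_prod] at h6
    exact h5.trans (hprod.trans (Real.rpow_le_rpow_of_exponent_le hX1 hx))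
  have := Nat.le_floor h3
  omega

open Classical in
theorem corew {N K : ℕ} (hB : MBody N K) {Λ ϑ θ δ d G : ℝ} {b X b0 : ℕ} (hΛ : 0 < Λ)
    (hϑ : 0 < ϑ) (hϑ1 : ϑ ≤ 1 / 2) (hθ : 0 < θ) (hθ1 : θ ≤ ϑ / 16) (hδ : 0 < δ) (hδ1 : δ ≤ 1 / 8)
    (hδϑ : δ ≤ ϑ)
    (hKb : K ≤ b) (hδb : δ * (K * b) ≤ θ / 4) (hd0 : 0 < d) (hd : d ≤ 1)
    (hX16 : 16 ≤ X) (hKH : K ≤ HH X) (hw1 : (2 : ℝ) ^ 2 ^ JJ δ X ≤ (X : ℝ) ^ δ)
    (hw3 : HH X < 2 ^ 2 ^ JJ δ X) (hJ : 1 ≤ JJ δ X)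
    (hPi : ∏ p ∈ P2 (JJ δ X) X, (1 + (1 : ℝ) / ((p : ℝ) - 1)) ≤ G)
    (hdl : ∀ P : Finset ℕ, (∀ p ∈ P, p.Prime ∧ HH X < p) → ∀ U : Finset ℕ, U.card ≤ N →
      (∀ a ∈ U, 1 ≤ a ∧ (a : ℝ) ≤ Λ * Real.log X) → ∀ o : Option ℕ,
      (∀ a ∈ o, 1 ≤ a ∧ (a : ℝ) ≤ Λ * Real.log X ∧ a ∉ U) → EN.dl (ee o) rho P U ≤ d)
    {o : Option ℕ} {S : Finset ℕ} {Ω E : ℝ} {Er : Finset ℕ → ℝ} (hΩ : 0 ≤ Ω) (hE0 : 0 ≤ E)
    (hEq : Eqd o ((PX X).filter (fun p : ℕ => (p : ℝ) ≤ (X : ℝ) ^ ϑ)) S Ω Er)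
    (hEs : ∑ D ∈ (PX X).powerset.filter
      (fun D : Finset ℕ => ∏ p ∈ D, (p : ℝ) ≤ (X : ℝ) ^ ϑ),
      (K : ℝ) ^ D.card * Er D ≤ E)
    {U : Finset ℕ} (hU : U ⊆ Bw Λ X b0) (hUN : U.card ≤ N)
    (ho : ∀ a ∈ o, 1 ≤ a ∧ (a : ℝ) ≤ Λ * Real.log X ∧ a ∉ U)
    {F F' : ℕ → Finset (Finset ℕ)} {u u' : ℕ → ℝ}
    (hF : ∀ a ∈ U, 0 ≤ u a ∧ Fam δ X (u a) (F a)) (hF' : ∀ a ∈ U, 0 ≤ u' a ∧ Fam δ X (u' a) (F' a))
    (hsum : ∑ a ∈ U, (u a + u' a) ≤ ϑ - 2 * θ)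
    (hor : (∀ a ∈ U, F a = F' a) ∨ ∃ a ∈ U, Disjoint (F a) (F' a)) :
    |∑ n ∈ S, rU δ X U n * ((∏ a ∈ U, FS (F a) a n) * ∏ a ∈ U, FS (F' a) a n) -
      (if ∀ a ∈ U, F a = F' a then Ω * VV δ X ^ U.card * ∏ a ∈ U, GG (F a) else 0)| ≤
      Ω * VV δ X ^ U.card * (K * G ^ K * (Real.exp (K * d) - 1 + (1 / 2 : ℝ) ^ b)) +
        K * G ^ K * (((JJ δ X : ℝ) + 2) * E) := by
  have hXr : (16 : ℝ) ≤ X := by exact_mod_cast hX16
  have hX0 : (0 : ℝ) < X := by linarith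
  have hX1 : (1 : ℝ) ≤ X := by linarith
  set J := JJ δ X with hJdef
  set M : ℕ := 2 ^ 2 ^ J with hM
  have hMr : ((2 : ℝ) ^ 2 ^ J) = (M : ℝ) := by rw [hM]; push_cast; rfl
  rw [hMr] at hw1
  have hle : ∀ {x y : ℝ}, x ≤ y → (X : ℝ) ^ x ≤ (X : ℝ) ^ y := fun h =>
    Real.rpow_le_rpow_of_exponent_le hX1 h
  set z : ℕ := ⌊(X : ℝ) ^ ϑ⌋₊ with hz
  have hzX : z ≤ X := by
    have h1 : (X : ℝ) ^ ϑ ≤ X := by
      calc (X : ℝ) ^ ϑ ≤ (X : ℝ) ^ (1 : ℝ) := hle (by linarith)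
        _ = X := Real.rpow_one _
    have h2 : (z : ℝ) ≤ X := (Nat.floor_le (by positivity)).trans h1
    exact_mod_cast h2
  have hP2' : ∀ p ∈ P2 J z, p.Prime ∧ M ≤ p := fun p hp => (Finset.mem_filter.1 hp).2
  have hP2sub : P2 J z ⊆ P2 J X := by
    intro p hp
    unfold P2 at hp ⊢
    rw [Finset.mem_filter, Finset.mem_range] at hp ⊢
    exact ⟨by omega, hp.2⟩
  have hP1 : ∀ p ∈ P1 (HH X) J, p.Prime ∧ HH X < p := fun p hp => (Finset.mem_filter.1 hp).2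
  have hunion : ∀ p ∈ P1 (HH X) J ∪ P2 J z, p.Prime ∧ HH X < p := by
    intro p hp
    rcases Finset.mem_union.1 hp with h | h
    · exact hP1 p h
    · exact ⟨(hP2' p h).1, lt_of_lt_of_le hw3 (hP2' p h).2⟩
  have hsubPX : P1 (HH X) J ∪ P2 J z ⊆
      (PX X).filter (fun p : ℕ => (p : ℝ) ≤ (X : ℝ) ^ ϑ) := by
    intro p hp
    obtain ⟨h1, h2⟩ := hunion p hp
    have h3 : (p : ℝ) ≤ (X : ℝ) ^ ϑ := by
      rcases Finset.mem_union.1 hp with h | h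
      · have h5 : p < M := by
          have := (Finset.mem_filter.1 h).1
          rwa [Finset.mem_range] at this
        have h6 : (p : ℝ) ≤ M := by exact_mod_cast h5.le
        exact h6.trans (hw1.trans (hle (by linarith)))
      · have h5 : p < z + 1 := by
          have := (Finset.mem_filter.1 h).1
          rwa [Finset.mem_range] at this
        have h6 : (p : ℝ) ≤ z := by exact_mod_cast (by omega : p ≤ z)
        exact h6.trans (Nat.floor_le (by positivity))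
    have h4 : p ≤ X := by
      have h5 : (X : ℝ) ^ ϑ ≤ X := by
        calc (X : ℝ) ^ ϑ ≤ (X : ℝ) ^ (1 : ℝ) := hle (by linarith)
          _ = X := Real.rpow_one _
      exact_mod_cast h3.trans h5
    rw [Finset.mem_filter]
    unfold PX
    rw [Finset.mem_filter, Finset.mem_range]
    exact ⟨⟨by omega, h1, h2⟩, h3⟩
  have hua : ∀ a ∈ U, u a ≤ ϑ ∧ u' a ≤ ϑ := by
    intro a ha
    have h1 : u a + u' a ≤ ∑ a ∈ U, (u a + u' a) :=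
      Finset.single_le_sum (f := fun a => u a + u' a)
        (fun i hi => add_nonneg (hF i hi).1 (hF' i hi).1) ha
    have h2 := (hF a ha).1
    have h3 := (hF' a ha).1
    constructor <;> linarith
  have hprod : ∀ f f' : ℕ → Finset ℕ, (∀ a ∈ U, f a ∈ F a ∧ f' a ∈ F' a) →
      (∏ a ∈ U, ∏ p ∈ f a, p) * (∏ a ∈ U, ∏ p ∈ f' a, p) ≤ ⌊(X : ℝ) ^ (ϑ - 2 * θ)⌋₊ := by
    intro f f' hf
    apply Nat.le_floor
    push_cast
    have h1 : ∏ a ∈ U, ∏ p ∈ f a, (p : ℝ) ≤ ∏ a ∈ U, (X : ℝ) ^ (u a) :=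
      Finset.prod_le_prod (fun a _ => Finset.prod_nonneg fun p _ => Nat.cast_nonneg p)
        (fun a ha => by
          obtain ⟨k1, k2⟩ := (hF a ha).2 (f a) (hf a ha).1
          exact (fam_subw hX16 (hua a ha).1 k1 k2).2)
    have h2 : ∏ a ∈ U, ∏ p ∈ f' a, (p : ℝ) ≤ ∏ a ∈ U, (X : ℝ) ^ (u' a) :=
      Finset.prod_le_prod (fun a _ => Finset.prod_nonneg fun p _ => Nat.cast_nonneg p)
        (fun a ha => by
          obtain ⟨k1, k2⟩ := (hF' a ha).2 (f' a) (hf a ha).2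
          exact (fam_subw hX16 (hua a ha).2 k1 k2).2)
    calc (∏ a ∈ U, ∏ p ∈ f a, (p : ℝ)) * ∏ a ∈ U, ∏ p ∈ f' a, (p : ℝ)
        ≤ (∏ a ∈ U, (X : ℝ) ^ (u a)) * ∏ a ∈ U, (X : ℝ) ^ (u' a) :=
          mul_le_mul h1 h2
            (Finset.prod_nonneg fun a _ => Finset.prod_nonneg fun p _ => Nat.cast_nonneg p)
            (by positivity)
      _ = (X : ℝ) ^ (∑ a ∈ U, (u a + u' a)) := by
          rw [← Real.rpow_sum_of_pos hX0, ← Real.rpow_sum_of_pos hX0, ← Real.rpow_add hX0,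
            Finset.sum_add_distrib]
      _ ≤ (X : ℝ) ^ (ϑ - 2 * θ) := hle hsum
  have hD0 : M ^ (K * b) * ⌊(X : ℝ) ^ (ϑ - 2 * θ)⌋₊ ≤ ⌊(X : ℝ) ^ (ϑ - θ)⌋₊ := by
    apply Nat.le_floor
    push_cast
    have h1 : (M : ℝ) ^ (K * b) ≤ (X : ℝ) ^ (θ / 4) := by
      calc (M : ℝ) ^ (K * b) ≤ ((X : ℝ) ^ δ) ^ (K * b) :=
            pow_le_pow_left₀ (Nat.cast_nonneg _) hw1 _
        _ = (X : ℝ) ^ (δ * ((K * b : ℕ) : ℝ)) := by
            rw [← Real.rpow_natCast, ← Real.rpow_mul hX0.le]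
        _ ≤ (X : ℝ) ^ (θ / 4) := by
            apply hle
            push_cast
            exact hδb
    have h2 : (⌊(X : ℝ) ^ (ϑ - 2 * θ)⌋₊ : ℝ) ≤ (X : ℝ) ^ (ϑ - 2 * θ) :=
      Nat.floor_le (by positivity)
    calc (M : ℝ) ^ (K * b) * (⌊(X : ℝ) ^ (ϑ - 2 * θ)⌋₊ : ℝ)
        ≤ (X : ℝ) ^ (θ / 4) * (X : ℝ) ^ (ϑ - 2 * θ) :=
          mul_le_mul h1 h2 (by positivity) (by positivity)
      _ = (X : ℝ) ^ (θ / 4 + (ϑ - 2 * θ)) := by rw [Real.rpow_add hX0]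
      _ ≤ (X : ℝ) ^ (ϑ - θ) := hle (by linarith)
  have hErsum : ∑ T ∈ (P1 (HH X) J ∪ P2 J z).powerset.filter
      (fun T : Finset ℕ => ∏ p ∈ T, p ≤ ⌊(X : ℝ) ^ (ϑ - θ)⌋₊), (K : ℝ) ^ T.card * Er T ≤ E := by
    refine le_trans ?_ hEs
    apply Finset.sum_le_sum_of_subset_of_nonneg
    · intro T hT
      rw [Finset.mem_filter, Finset.mem_powerset] at hT ⊢
      refine ⟨fun p hp => (Finset.mem_filter.1 (hsubPX (hT.1 hp))).1, ?_⟩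
      have h1 := (Nat.le_floor_iff (by positivity)).1 hT.2
      push_cast at h1
      exact h1.trans (hle (by linarith))
    · intro T _ _
      exact mul_nonneg (by positivity) (hEq.2.1 T)
  have main := hB o δ X b J ⌊(X : ℝ) ^ (ϑ - θ)⌋₊ ⌊(X : ℝ) ^ (ϑ - 2 * θ)⌋₊ (P2 J z) S Ω Er U
    F F' d E hUN rfl hKb hKH hw3 hJ hP2' (by
      intro a ha
      refine ⟨fun R hR => ?_, fun R hR => ?_⟩
      · obtain ⟨k1, k2⟩ := (hF a ha).2 R hR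
        exact (fam_subw hX16 (hua a ha).1 k1 k2).1
      · obtain ⟨k1, k2⟩ := (hF' a ha).2 R hR
        exact (fam_subw hX16 (hua a ha).2 k1 k2).1) hprod hΩ (eqd_mono hsubPX hEq) hErsum hD0 hd
    (hdl _ hunion U hUN (fun a ha => Bw_mem hΛ (by omega) (hU ha)) o ho) hor
  refine main.trans ?_
  have hpi : AC.Pi1 (P2 J z) ≤ G :=
    (pi1_mono hP2sub (fun p hp => (Finset.mem_filter.1 hp).2.1)).trans hPi
  have hpi0 : 0 ≤ AC.Pi1 (P2 J z) := by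
    unfold AC.Pi1
    apply Finset.prod_nonneg
    intro p hp
    have h1 : (1 : ℝ) < p := by exact_mod_cast (hP2' p hp).1.one_lt
    have h2 : (0 : ℝ) < (p : ℝ) - 1 := by linarith
    positivity
  have hpk : AC.Pi1 (P2 J z) ^ K ≤ G ^ K := pow_le_pow_left₀ hpi0 hpi K
  have hexp : 0 ≤ Real.exp (K * d) - 1 + (1 / 2 : ℝ) ^ b := by
    have h1 : 1 ≤ Real.exp (K * d) := Real.one_le_exp (by positivity)
    have h2 : (0 : ℝ) ≤ (1 / 2 : ℝ) ^ b := by positivity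
    linarith
  have hVV := vv_nonneg δ X
  unfold EN.EE
  have e1 : (K : ℝ) * AC.Pi1 (P2 J z) ^ K ≤ K * G ^ K :=
    mul_le_mul_of_nonneg_left hpk (Nat.cast_nonneg K)
  apply add_le_add
  · exact mul_le_mul_of_nonneg_left (mul_le_mul_of_nonneg_right e1 hexp) (by positivity)
  · exact mul_le_mul_of_nonneg_right e1 (by positivity)

theorem mlw_of (hMLA : S_MLA) (hSm2 : Sm2) (hGbd : Gbd) (hW : Wtx) : S_MLW := by
  classical
  intro N m Λ ϑ θ s c₀ hΛ hϑ hϑ1 hθ hθ1 hs hc₀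
  obtain ⟨K, hK, hB⟩ := mbody hMLA N
  obtain ⟨Cg, hCg, hGbd⟩ := hGbd 1
  obtain ⟨cv, hcv, hcv1, hvv⟩ := vv_lower
  obtain ⟨M, hMdef⟩ : ∃ M : ℕ, M = Cg + m := ⟨_, rfl⟩
  have hM : 1 ≤ M := by omega
  have hMr : (1 : ℝ) ≤ M := by exact_mod_cast hM
  have hM0 : (0 : ℝ) < M := by linarith
  obtain ⟨δ₀, hδ₀, hδ₀8, hδ⟩ := choose_delta K M θ (s / 3) 1 hK hM hθ (by positivity) one_pos
  refine ⟨K, N + 4, min δ₀ ϑ, lt_min hδ₀ hϑ, fun δ hδ0 hδle' => ?_⟩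
  have hδle : δ ≤ δ₀ := hδle'.trans (min_le_left _ _)
  have hδϑ : δ ≤ ϑ := hδle'.trans (min_le_right _ _)
  obtain ⟨b, hKb, hδb, hb⟩ := hδ δ hδ0 hδle
  have hδ8 : δ ≤ 1 / 8 := hδle.trans hδ₀8
  have hδ1 : δ ≤ 1 := by linarith
  obtain ⟨V, hV⟩ : ∃ V : ℝ, V = (δ / M) ^ M := ⟨_, rfl⟩
  have hV0 : 0 < V := by rw [hV]; positivity
  have hGV : (((Cg : ℝ) / δ) ^ Cg) ^ K ≤ δ ^ m * (1 / V ^ K) := by
    rw [hV, hMdef]
    exact gv hCg hK hδ0 hδ1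
  rw [← hV] at hb
  obtain ⟨d, hd0, hd1, hd⟩ := choose_d K (K / V ^ K) (s / 3) (by positivity) (by positivity)
  obtain ⟨X₁, h1⟩ := hSm2 N Λ d hΛ hd0
  obtain ⟨X₃, h3⟩ := hGbd δ hδ0 hδ8
  obtain ⟨X₄, hw⟩ := hW.2 δ hδ0 hδ1
  have hev : ∀ᶠ X : ℕ in atTop, (max K 2 ≤ HH X) ∧ (2 < (X : ℝ) ^ (δ / 2)) ∧
      max (1 + 1 / c₀) (K / V ^ K * 4 * 3 / (s * cv ^ N)) ≤ Real.log X := by
    have e1 := HH_tendsto.eventually_ge_atTop (max K 2)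
    have e3 : ∀ᶠ X : ℕ in atTop, 2 < (X : ℝ) ^ (δ / 2) :=
      ((tendsto_rpow_atTop (by positivity : 0 < δ / 2)).comp
        tendsto_natCast_atTop_atTop).eventually_gt_atTop 2
    have e4 := log_tendsto.eventually_ge_atTop (max (1 + 1 / c₀) (K / V ^ K * 4 * 3 / (s * cv ^ N)))
    filter_upwards [e1, e3, e4] with X a1 a3 a4
    exact ⟨a1, a3, a4⟩
  obtain ⟨X₈, h8⟩ := Filter.eventually_atTop.1 hev
  refine ⟨max 16 (max X₁ (max X₃ (max X₄ X₈))), ?_⟩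
  intro X hX ω hω b0 hb0 U hU hUN F F' u u' hF hF' hsum hor
  simp only [max_le_iff] at hX
  obtain ⟨hX16, hX1, hX3, hX4, hX8⟩ := hX
  obtain ⟨hHH, hrp, hlog⟩ := h8 X hX8
  obtain ⟨hw1, hw2, hw3⟩ := hw X hX4
  have hXr : (16 : ℝ) ≤ X := by exact_mod_cast hX16
  have hc1 : 0 < 1 / c₀ := by positivity
  have hL1' : 1 + 1 / c₀ ≤ Real.log X := (le_max_left _ _).trans hlog
  have hL1 : 1 ≤ Real.log X := by linarith
  have hL0 : 0 < Real.log X := by linarith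
  have hLb : K / V ^ K * 4 * 3 / (s * cv ^ N) ≤ Real.log X := (le_max_right _ _).trans hlog
  have hKH : K ≤ HH X := (le_max_left _ _).trans hHH
  have h2H : 2 ≤ HH X := (le_max_right _ _).trans hHH
  have hJ : 1 ≤ JJ δ X := by
    by_contra h
    have h0 : JJ δ X = 0 := by omega
    rw [h0] at hw2
    norm_num at hw2
    linarith
  have hJ4 : (JJ δ X : ℝ) + 2 ≤ 4 * Real.log X := JJ_le hδ1 hX16 hw1
  have hVVlow : cv / Real.log X ≤ VV δ X := hvv X δ hδ0 hδ1 hX16 h2H hw1 hw3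
  have hPi : ∏ p ∈ P2 (JJ δ X) X, (1 + (1 : ℝ) / ((p : ℝ) - 1)) ≤ ((Cg : ℝ) / δ) ^ Cg := by
    have h10 := h3 X hX3
    rwa [Nat.cast_one] at h10
  have hfin : ∀ (o : Option ℕ) (S : Finset ℕ) (Ω : ℝ) (Er : Finset ℕ → ℝ), 0 ≤ Ω →
      Eqd o ((PX X).filter (fun p : ℕ => (p : ℝ) ≤ (X : ℝ) ^ ϑ)) S Ω Er →
      ∑ D ∈ (PX X).powerset.filter
        (fun D : Finset ℕ => ∏ p ∈ D, (p : ℝ) ≤ (X : ℝ) ^ ϑ),
        (K : ℝ) ^ D.card * Er D ≤ Ω / Real.log X ^ (N + 2) →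
      (∀ a ∈ o, 1 ≤ a ∧ (a : ℝ) ≤ Λ * Real.log X ∧ a ∉ U) → _ := fun o S Ω Er hΩ hEq hEs ho =>
    (corew hB hΛ hϑ hϑ1 hθ hθ1 hδ0 hδ8 hδϑ hKb hδb hd0 hd1 hX16 hKH hw1 hw3 hJ hPi (h1 X hX1) hΩ
      (by positivity) hEq hEs hU hUN ho hF hF' hsum hor).trans
      (arith (s := s) (c := U.card) hδ0 hV0 hGV hs hΩ hL1 hb hd0 hd hJ4 hcv hVVlow (vv_le_one δ X)
        hUN rfl hLb)
  obtain ⟨⟨hH, hP, hQ, hcl⟩, hden⟩ := hω
  obtain ⟨hcl1, hcl2⟩ := hcl b0 hb0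
  have hWm : (0 : ℝ) < Wm X := by exact_mod_cast Pool.Agent.H361R2.PP.Wm_pos X
  have hφ : (0 : ℝ) < Nat.totient (Wm X) := by
    exact_mod_cast Nat.totient_pos.mpr (Pool.Agent.H361R2.PP.Wm_pos X)
  have hφW : (Nat.totient (Wm X) : ℝ) ≤ Wm X := by exact_mod_cast Nat.totient_le _
  refine ⟨?_, ?_⟩
  · obtain ⟨Er, hEq, hEs⟩ := hcl1
    refine hfin none (WI ω X b0) _ Er (by positivity) hEq (hEs.trans ?_) (by simp)
    apply div_le_div_of_nonneg_left (by positivity) (by positivity)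
    exact pow_le_pow_right₀ hL1 (by omega)
  · intro a₀ ha₀
    rw [Finset.mem_sdiff] at ha₀
    obtain ⟨Er, hEq, hEs⟩ := hcl2 a₀ ha₀.1
    refine hfin (some a₀) (WP ω X b0 a₀) _ Er (by positivity) hEq (hEs.trans ?_) ?_
    · have e1 : ω.H / Wm X ≤ ω.P / Nat.totient (Wm X) * (Real.log X ^ 2) := by
        have e2 : ω.H ≤ ω.P * Real.log X ^ 2 := by
          have e3 : ω.H ≤ ω.P * Real.log X * (1 / c₀) := by
            rw [mul_one_div, le_div_iff₀ hc₀]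
            linarith
          refine e3.trans ?_
          have e4 : 1 / c₀ ≤ Real.log X := by linarith
          calc ω.P * Real.log X * (1 / c₀) ≤ ω.P * Real.log X * Real.log X :=
                mul_le_mul_of_nonneg_left e4 (by positivity)
            _ = ω.P * Real.log X ^ 2 := by ring
        calc ω.H / Wm X ≤ ω.P * Real.log X ^ 2 / Wm X := div_le_div_of_nonneg_right e2 hWm.le
          _ ≤ ω.P * Real.log X ^ 2 / Nat.totient (Wm X) :=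
              div_le_div_of_nonneg_left (by positivity) hφ hφW
          _ = _ := by ring
      rw [div_le_div_iff₀ (by positivity) (by positivity)]
      calc ω.H / Wm X * Real.log X ^ (N + 2) ≤
          ω.P / Nat.totient (Wm X) * (Real.log X ^ 2) * Real.log X ^ (N + 2) :=
            mul_le_mul_of_nonneg_right e1 (by positivity)
        _ = _ := by ring
    · intro a ha
      have ha' : a₀ = a := by simpa using ha
      rw [← ha']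
      obtain ⟨k1, k2⟩ := Bw_mem hΛ (by omega) ha₀.1
      exact ⟨k1, k2, ha₀.2⟩

/-- **MLW** -/
theorem s_MLW : S_MLW :=
  mlw_of Pool.Agent.W70.HR.mla Pool.Agent.H804R2.PPSm2.sm2 Pool.Agent.W70.HR.gbd Pool.Agent.H325R2.wtx

end Pool.Agent.L7h28.BP
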