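import Pool.Agent.L7h18.BP.Eng
import Pool.Agent.H361R2.PP.Main3
import Pool.Agent.W70.HR.Asm0

/-!
# Project BP: the choice of the parameters of the weights for windows (PARW)

Adapted from `Pool/Agent/W333/HR/Par.lean`.
-/

set_option autoImplicit false
set_option linter.all false

open Finset

namespace Pool.Agent.L7h28.BP

open Pool.Agent.H361R2.PP Pool.Agent.L7h18.BP
open Pool.Agent.W70.HR (Bw rU xh qh Fam S_MV mer mv)
open Pool.Agent.H410R2.AC (wt GG cfg term WW pos Inj coef)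

theorem Sp_sub {ϑ δ θ : ℝ} {X : ℕ} : ∀ R ∈ Sp ϑ δ θ X, R ⊆ P2 (JJ δ X) X := by
  intro R hR
  unfold Sp at hR
  rw [mem_filter, mem_powerset] at hR
  exact hR.1

theorem Sp_ge {ϑ δ θ : ℝ} {X : ℕ} (hX : 1 ≤ X) (hθ : 0 ≤ ϑ / 2 - 2 * θ) : 1 ≤ GG (Sp ϑ δ θ X) := by
  have h1 : (∅ : Finset ℕ) ∈ Sp ϑ δ θ X := by
    unfold Sp
    rw [mem_filter, mem_powerset]
    refine ⟨empty_subset _, ?_⟩
    rw [prod_empty]
    exact Real.one_le_rpow (by exact_mod_cast hX) hθ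
  calc (1 : ℝ) = wt ∅ := by unfold wt; simp
    _ ≤ GG (Sp ϑ δ θ X) := single_le_sum (f := wt) (fun R hR => wt_nonneg P2_prime (Sp_sub R hR)) h1

theorem Sp_eq {ϑ δ θ : ℝ} {X : ℕ} :
    Sp ϑ δ θ X = (P2 (JJ δ X) X).powerset.filter
      (fun R : Finset ℕ => ∏ p ∈ R, p ≤ ⌊(X : ℝ) ^ (ϑ / 2 - 2 * θ)⌋₊) := by
  classical
  unfold Sp
  apply filter_congr
  intro R _
  rw [Nat.le_floor_iff (by positivity)]
  push_cast
  rfl

theorem Sp_lower {ϑ δ θ : ℝ} {X : ℕ} (hGGS : GGSharp) (hθ0 : 0 < θ) (h1 : 0 ≤ ϑ / 2 - 2 * θ)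
    (h2 : ϑ / 2 - 2 * θ ≤ 1) (hX : 1 ≤ X)
    (hM : ∏ p ∈ (range (2 ^ 2 ^ JJ δ X)).filter Nat.Prime, (1 - 1 / (p : ℝ)) =
      VV δ X * ((Nat.totient (Wm X) : ℝ) / Wm X)) (hV0 : 0 < VV δ X)
    (hl : (ϑ / 2 - 2 * θ - θ) * Real.log X ≤
      Real.log (⌊(X : ℝ) ^ (ϑ / 2 - 2 * θ)⌋₊ : ℝ)) (hl1 : 1 ≤ ⌊(X : ℝ) ^ (ϑ / 2 - 2 * θ)⌋₊) :
    (ϑ / 2 - 3 * θ) * Real.log X * (VV δ X * ((Nat.totient (Wm X) : ℝ) / Wm X)) ≤
      GG (Sp ϑ δ θ X) := by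
  have h1 := hGGS (JJ δ X) X ⌊(X : ℝ) ^ (ϑ / 2 - 2 * θ)⌋₊ hl1 (by
    have hX1 : (1 : ℝ) ≤ X := by exact_mod_cast hX
    have h2 : (X : ℝ) ^ (ϑ / 2 - 2 * θ) ≤ (X : ℝ) ^ (1 : ℝ) :=
      Real.rpow_le_rpow_of_exponent_le hX1 h2
    rw [Real.rpow_one] at h2
    exact Nat.floor_le_of_le h2)
  rw [← Sp_eq, hM] at h1
  have hf0 : 0 ≤ (Nat.totient (Wm X) : ℝ) / Wm X := by positivity
  refine le_trans ?_ h1
  apply mul_le_mul_of_nonneg_right _ (by positivity)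
  linarith

theorem vn_eq {δ : ℝ} {X : ℕ} (hL : 0 < Real.log X) (hV : 0 < VV δ X) (hδ : 0 < δ) :
    vn δ X = δ / (VV δ X * ((Nat.totient (Wm X) : ℝ) / Wm X) * (δ * Real.log X)) := by
  have hW : (0 : ℝ) < Wm X := by exact_mod_cast Wm_pos X
  have hφ : (0 : ℝ) < Nat.totient (Wm X) := by
    exact_mod_cast Nat.totient_pos.mpr (Wm_pos X)
  unfold vn
  field_simp

theorem parw : Pool.Agent.H410R2.AC.Types → GGTypes → GGSharp → Mer → S_MV → S_PARW := by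
  intro hTy hGGT hGGS hMer hMV T s ϑ hT hs hϑ0 hϑ1
  obtain ⟨CT, hCT1, hCT⟩ := hGGT
  obtain ⟨CM, hCM1, hCM⟩ := hMer
  obtain ⟨cV, hcV, hMVX⟩ := hMV
  have hCM0 : 0 < CM := by linarith
  have hT0 : (1 : ℝ) ≤ T := by exact_mod_cast hT
  have hT0' : (0 : ℝ) < T := by linarith
  obtain ⟨θ, hθ⟩ : ∃ θ : ℝ, θ = ϑ / 32 := ⟨_, rfl⟩
  have hθ0 : 0 < θ := by rw [hθ]; positivity
  have hθ1 : θ ≤ ϑ / 16 := by rw [hθ]; linarith
  obtain ⟨η', hη'⟩ : ∃ η' : ℝ, η' = s / (T * CM) := ⟨_, rfl⟩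
  have hη'0 : 0 < η' := by rw [hη']; positivity
  obtain ⟨t, u, β, V₀, hV₀, huβ, hβ1, hu, hty⟩ := hTy CT η' (θ / 2) hCT1 hη'0 (by linarith)
  have ht : 1 ≤ t := by
    rcases Nat.eq_zero_or_pos t with h | h
    · subst h
      simp at hβ1
    · exact h
  have ht0 : (1 : ℝ) ≤ t := by exact_mod_cast ht
  have ht0' : (0 : ℝ) < t := by linarith
  obtain ⟨dβ, hdβ0, hdβ⟩ : ∃ d : ℝ, 0 < d ∧ ∀ τ, d ≤ β τ ^ 2 / η' := by
    have hpos : ∀ τ, 0 < η' / β τ ^ 2 := fun τ => div_pos hη'0 (pow_pos (huβ τ).2 2)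
    refine ⟨1 / (∑ τ, η' / β τ ^ 2 + 1), ?_, fun τ => ?_⟩
    · have : 0 ≤ ∑ τ, η' / β τ ^ 2 := sum_nonneg fun τ _ => (hpos τ).le
      positivity
    · have h1 : η' / β τ ^ 2 ≤ ∑ τ, η' / β τ ^ 2 :=
        single_le_sum (f := fun τ => η' / β τ ^ 2) (fun τ _ => (hpos τ).le) (mem_univ τ)
      calc 1 / (∑ τ, η' / β τ ^ 2 + 1) ≤ 1 / (η' / β τ ^ 2) :=
            one_div_le_one_div_of_le (hpos τ) (by linarith)
        _ = β τ ^ 2 / η' := by rw [one_div_div]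
  obtain ⟨δ₀, hδ₀⟩ : ∃ δ₀ : ℝ, δ₀ = min (min V₀ dβ) (min (min (1 / 8) (cV / t))
    (1 / (CM + 1))) := ⟨_, rfl⟩
  refine ⟨θ, t, t, u, β, hθ0, hθ1, ht, huβ, hβ1, hu, δ₀, ?_, ?_⟩
  · rw [hδ₀]
    exact lt_min (lt_min hV₀ hdβ0) (lt_min (lt_min (by norm_num) (by positivity)) (by positivity))
  intro δ hδ0 hδ
  have hδ1 : δ ≤ V₀ := hδ.trans (by rw [hδ₀]; exact (min_le_left _ _).trans (min_le_left _ _))
  have hδ2 : δ ≤ dβ := hδ.trans (by rw [hδ₀]; exact (min_le_left _ _).trans (min_le_right _ _))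
  have hδ3 : δ ≤ 1 / 8 := hδ.trans (by
    rw [hδ₀]; exact (min_le_right _ _).trans ((min_le_left _ _).trans (min_le_left _ _)))
  have hδ4 : δ ≤ cV / t := hδ.trans (by
    rw [hδ₀]; exact (min_le_right _ _).trans ((min_le_left _ _).trans (min_le_right _ _)))
  have hδ5 : δ ≤ 1 / (CM + 1) := hδ.trans (by
    rw [hδ₀]; exact (min_le_right _ _).trans (min_le_right _ _))
  obtain ⟨X1, hGX⟩ := hCT δ hδ0 hδ3
  obtain ⟨X2, hMX⟩ := hCM δ hδ0 (by linarith)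
  obtain ⟨X3, hVX⟩ := hMVX δ hδ0 (by linarith)
  obtain ⟨X5, hFX⟩ := log_floor (a := ϑ / 2 - 2 * θ) (θ := θ) (by linarith) hθ0
  refine ⟨X1 + X2 + X3 + X5 + 2, fun X hX => ?_⟩
  have hX2 : 2 ≤ X := by omega
  have hX1 : 1 ≤ X := by omega
  have hXr : (0 : ℝ) < X := by exact_mod_cast hX1
  have hL : 0 < Real.log X := Real.log_pos (by exact_mod_cast hX2)
  obtain ⟨hV0, hM1, hM2⟩ := hMX X (by omega)
  change 0 < VV δ X at hV0
  change VV δ X * _ * _ ≤ CM at hM1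
  change _ = VV δ X * _ at hM2
  have hM3 := hVX X (by omega)
  obtain ⟨hF1, hF2⟩ := hFX X (by omega)
  obtain ⟨S, hS1, hS2, hS3, hS4⟩ := fam_of (X := X) (T := θ / 2) hδ0 hL (by linarith)
    (hty δ · · · hδ0 hδ1) (hGX X (by omega))
  -- the density
  obtain ⟨M, hM⟩ : ∃ M : ℝ, M = VV δ X * ((Nat.totient (Wm X) : ℝ) / Wm X) *
    (δ * Real.log X) := ⟨_, rfl⟩
  have hvn : vn δ X = δ / M := by rw [hM]; exact vn_eq hL hV0 hδ0
  rw [← hM] at hM1 hM3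
  have hM0 : 0 < M := lt_of_lt_of_le hcV hM3
  have hvn0 : 0 < vn δ X := by rw [hvn]; positivity
  have hvn1 : δ / CM ≤ vn δ X := by
    rw [hvn]
    exact div_le_div_of_nonneg_left hδ0.le hM0 hM1
  have hvn2 : vn δ X ≤ δ / cV := by
    rw [hvn]
    exact div_le_div_of_nonneg_left hδ0.le hcV hM3
  -- the size
  obtain ⟨Q, hQ⟩ : ∃ Q : ℝ, Q = 1 / (t * vn δ X) := ⟨_, rfl⟩
  have hQ0 : 0 < Q := by rw [hQ]; positivity
  have hQ1 : 1 ≤ Q := by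
    rw [hQ, le_div_iff₀ (by positivity), one_mul]
    calc (t : ℝ) * vn δ X ≤ t * (δ / cV) := mul_le_mul_of_nonneg_left hvn2 ht0'.le
      _ ≤ t * (cV / t / cV) := by gcongr
      _ = 1 := by field_simp
  have hQ2 : Q ≤ CM / (t * δ) := by
    rw [hQ, div_le_div_iff₀ (by positivity) (by positivity)]
    have h1 : δ ≤ vn δ X * CM := by rwa [div_le_iff₀ (by positivity)] at hvn1
    calc 1 * (t * δ) ≤ 1 * (t * (vn δ X * CM)) := by gcongr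
      _ = CM * (t * vn δ X) := by ring
  obtain ⟨γ, hγ⟩ : ∃ γ : ℝ, γ = Real.sqrt Q - 1 := ⟨_, rfl⟩
  have hγ0 : 0 ≤ γ := by
    rw [hγ, sub_nonneg]
    exact Real.one_le_sqrt.2 hQ1
  have hγ1 : (1 + γ) ^ 2 = Q := by
    rw [hγ, add_sub_cancel, Real.sq_sqrt hQ0.le]
  have hγ2 : γ ^ 2 ≤ Q := by
    rw [← hγ1]
    exact pow_le_pow_left₀ hγ0 (by linarith) 2
  -- one-particle masses
  have hG0 : ∀ τ, 0 < GG (S τ) := fun τ =>
    lt_of_lt_of_le (by have := (huβ τ).2; positivity) (hS4 τ)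
  have hβG : ∀ τ, β τ ^ 2 / GG (S τ) ≤ η' * δ := by
    intro τ
    rw [div_le_iff₀ (hG0 τ)]
    have := hS4 τ
    rw [div_le_iff₀ (by positivity)] at this
    linarith
  have hmass : ∀ τ, γ ^ 2 * (β τ ^ 2 / GG (S τ)) ≤ s / (T * t) := by
    intro τ
    calc γ ^ 2 * (β τ ^ 2 / GG (S τ)) ≤ (CM / (t * δ)) * (η' * δ) :=
          mul_le_mul (hγ2.trans hQ2) (hβG τ) (div_nonneg (sq_nonneg _) (hG0 τ).le) (by positivity)
      _ = s / (T * t) := by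
          rw [hη']
          field_simp
  have hGS1 : 1 ≤ GG (Sp ϑ δ θ X) := Sp_ge hX1 (by linarith)
  refine ⟨S, γ, hS1, hS2, hS3, ?_, hγ0, ?_, hV0, hvn0, ?_, ?_, ?_, hGS1, ?_⟩
  · intro τ
    refine le_trans ?_ (hS4 τ)
    rw [le_div_iff₀ (by positivity), one_mul]
    have h1 := hδ2.trans (hdβ τ)
    rw [le_div_iff₀ hη'0] at h1
    linarith
  · have h1 : (1 + γ) ^ 2 ≤ ((1 / δ) ^ 2) ^ 2 := by
      rw [hγ1]
      refine hQ2.trans ?_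
      have h2 : δ * CM ≤ 1 := by
        rw [le_div_iff₀ (by positivity)] at hδ5
        linarith
      rw [div_le_iff₀ (by positivity)]
      have h3 : ((1 / δ) ^ 2) ^ 2 * (t * δ) = t * (1 / δ) ^ 3 := by
        field_simp
      rw [h3]
      have h4 : CM ≤ 1 / δ := by
        rw [le_div_iff₀ hδ0]; linarith
      have h5 : (1 : ℝ) ≤ 1 / δ := by
        rw [le_div_iff₀ hδ0]; linarith
      have h6 : 1 / δ ≤ (1 / δ) ^ 3 := by
        calc 1 / δ = (1 / δ) ^ 1 := (pow_one _).symm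
          _ ≤ (1 / δ) ^ 3 := pow_le_pow_right₀ h5 (by norm_num)
      have h7 : (1 / δ) ^ 3 ≤ t * (1 / δ) ^ 3 := le_mul_of_one_le_left (by positivity) ht0
      linarith
    exact (pow_le_pow_iff_left₀ (by linarith) (by positivity) (by norm_num)).mp h1
  · rw [hγ1, hQ]
    field_simp
  · intro τ
    have h1 := hmass τ
    calc (T * t : ℝ) * (γ ^ 2 * (β τ ^ 2 / GG (S τ))) ≤ (T * t : ℝ) * (s / (T * t)) :=
          mul_le_mul_of_nonneg_left h1 (by positivity)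
      _ = s := by field_simp
  · calc ∑ τ, γ ^ 2 * (β τ ^ 2 / GG (S τ)) ≤ ∑ τ : Fin t, s / (T * t) :=
          sum_le_sum fun τ _ => hmass τ
      _ = s / T := by
          rw [sum_const, card_univ, Fintype.card_fin, nsmul_eq_mul]
          field_simp
      _ ≤ s := div_le_self hs.le hT0
  · have h1 := Sp_lower (ϑ := ϑ) (δ := δ) (θ := θ) hGGS hθ0 (by linarith) (by linarith) hX1 hM2 hV0 hF1 hF2
    have hG : 0 < GG (Sp ϑ δ θ X) := by linarith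
    have hf : (ϑ / 2 - 3 * θ) * Real.log X * (VV δ X * ((Nat.totient (Wm X) : ℝ) / Wm X)) =
        M * (ϑ / 2 - 3 * θ) / δ := by
      rw [hM]
      field_simp
    rw [hf, div_le_iff₀ hδ0] at h1
    rw [hvn, div_le_iff₀ hG]
    have h2 : M * (ϑ / 8) ≤ GG (Sp ϑ δ θ X) * δ := by
      refine le_trans (mul_le_mul_of_nonneg_left ?_ hM0.le) h1
      rw [hθ]
      linarith
    calc (1 : ℝ) = 8 / ϑ * (1 / M) * (M * (ϑ / 8)) := by field_simp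
      _ ≤ 8 / ϑ * (1 / M) * (GG (Sp ϑ δ θ X) * δ) := mul_le_mul_of_nonneg_left h2 (by positivity)
      _ = 8 / ϑ * (δ / M) * GG (Sp ϑ δ θ X) := by ring

theorem s_PARW : S_PARW :=
  parw Pool.Agent.H708R2.types (Pool.Agent.H488R2.ggtypes Pool.Agent.H325R2.wtx)
    Pool.Agent.H633R2.ggSharp mer mv

end Pool.Agent.L7h28.BP
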