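import Pool.Agent.L7h18.BP.Eng
import Pool.Agent.W70.HR.WtA
import Pool.Agent.L7h28.BP.Parw

/-! Project BP, part WTW: the weighted sums for one block of positions in a window.
Adapted from `Pool/Agent/W70/HR/WtA.lean`. -/

set_option autoImplicit false
set_option linter.all false

open Finset

namespace Pool.Agent.L7h28.BP

open Pool.Agent.H361R2.PP
open Pool.Agent.W70.HR (Bw rU xh qh Fam S_PT ZB sumq rU_nonneg mem_Bw1)
open Pool.Agent.L7h18.BP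
open Pool.Agent.H410R2.AC (wt GG cfg term WW pos Inj coef)

/-- the density of the primes of the window relative to the rough numbers -/
noncomputable def vw (ω : Wd) (δ : ℝ) (X : ℕ) : ℝ := ω.P * Real.log X / ω.H * vn δ X

/-- the conclusion of `S_SM` for one class -/
def SMb {t : ℕ} (ω : Wd) (ϑ Λ δ θ s γ : ℝ) (X b N : ℕ) (β : Fin t → ℝ) (S : Fin t → Finset (Finset ℕ)) :
    Prop :=
  ∀ U ⊆ Bw Λ X b, U.card ≤ N → ∀ B ⊆ U,
  ∀ c : (Fin t → Option ℕ) → ℝ, (∀ σ, |c σ| ≤ (1 + γ) ^ 2) →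
    |∑ n ∈ WI ω X b, rU δ X U n * WW B c (xh γ β S n) ^ 2 -
      WOm ω δ X U.card * ∑ σ ∈ cfg t B, c σ ^ 2 * term (qh γ β S) σ| ≤ s * WOm ω δ X U.card ∧
    ∀ a₀ ∈ Bw Λ X b \ U,
      |∑ n ∈ WP ω X b a₀, rU δ X U n * WW B c (xh γ β S n) ^ 2 -
        WOmP ω δ X U.card * ∑ σ ∈ cfg t B, c σ ^ 2 * term (qh γ β S) σ| ≤ s * WOmP ω δ X U.card ∧
      ∀ a₁ ∈ U \ B,
      |∑ n ∈ WP ω X b a₀, rU δ X U n * (FS (Sp ϑ δ θ X) a₁ n * WW B c (xh γ β S n)) ^ 2 -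
        WOmP ω δ X U.card * (GG (Sp ϑ δ θ X) * ∑ σ ∈ cfg t B, c σ ^ 2 * term (qh γ β S) σ)| ≤
          s * WOmP ω δ X U.card

/-- the standing situation -/
structure Wst {t : ℕ} (ω : Wd) (ϑ Λ δ θ s η γ : ℝ) (X b N : ℕ) (β : Fin t → ℝ)
    (S : Fin t → Finset (Finset ℕ)) : Prop where
  sm : SMb ω ϑ Λ δ θ s γ X b N β S
  s0 : 0 ≤ s
  γ0 : 0 ≤ γ
  β0 : ∀ τ, 0 ≤ β τ
  β1 : ∑ τ, β τ = 1
  gg : ∀ τ, 1 ≤ GG (S τ)
  hS : ∀ τ, ∀ R ∈ S τ, R ⊆ P2 (JJ δ X) X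
  η0 : 0 ≤ η
  hη : ∀ τ, (N : ℝ) * (γ ^ 2 * (β τ ^ 2 / GG (S τ))) ≤ η
  hq : ∑ τ, γ ^ 2 * (β τ ^ 2 / GG (S τ)) ≤ η
  pJ : 2 ^ 2 ^ JJ δ X ≤ X
  v0 : 0 < VV δ X
  hX : 1 ≤ X
  g1 : 1 ≤ GG (Sp ϑ δ θ X)
  h0 : 0 < ω.H
  p0 : 0 ≤ ω.P
  l0 : 0 < Real.log X
  sub : ω.Q ⊆ Ico X (2 * X)

section

variable {t : ℕ} {ω : Wd} {ϑ Λ δ θ s η γ : ℝ} {X b N : ℕ} {β : Fin t → ℝ} {S : Fin t → Finset (Finset ℕ)}

theorem mem_WP (h : Wst ω ϑ Λ δ θ s η γ X b N β S) {n a : ℕ} (hn : n ∈ WP ω X b a) :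
    X ≤ n ∧ n < 2 * X ∧ n % Wm X = b ∧ (n + a).Prime := by
  unfold WP at hn
  rw [mem_filter] at hn
  have h1 := mem_Ico.1 (h.sub hn.1)
  exact ⟨h1.1, h1.2, hn.2.1, hn.2.2⟩

theorem xh_prime (h : Wst ω ϑ Λ δ θ s η γ X b N β S) {n a : ℕ} (hn : X ≤ n) (ha : 1 ≤ a)
    (hp : (n + a).Prime) (τ : Fin t) : xh γ β S n τ a = γ * β τ := by
  unfold xh
  rw [FS_prime (P2_lt hn ha) (h.hS τ) hp]
  have h1 := h.gg τ
  have : GG (S τ) ≠ 0 := by linarith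
  field_simp

theorem rU_erase (h : Wst ω ϑ Λ δ θ s η γ X b N β S) {U : Finset ℕ} {n a : ℕ} (ha : a ∈ U)
    (hn : X ≤ n) (ha1 : 1 ≤ a) (hp : (n + a).Prime) : rU δ X U n = rU δ X (U.erase a) n := by
  unfold rU
  rw [← mul_prod_erase U _ ha, rg_prime (P1_lt h.pJ hn ha1) hp, one_mul]

theorem qh_nonneg (h : Wst ω ϑ Λ δ θ s η γ X b N β S) (τ : Fin t) (a : ℕ) : 0 ≤ qh γ β S τ a := by
  unfold qh
  have := h.gg τ
  positivity

theorem termq_nonneg (h : Wst ω ϑ Λ δ θ s η γ X b N β S) (σ : Fin t → Option ℕ) :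
    0 ≤ term (qh γ β S) σ := by
  unfold term
  refine prod_nonneg fun τ _ => ?_
  cases σ τ with
  | none => exact zero_le_one
  | some a => exact qh_nonneg h τ a

theorem OmP_nonneg (h : Wst ω ϑ Λ δ θ s η γ X b N β S) (m : ℕ) : 0 ≤ WOmP ω δ X m := by
  unfold WOmP
  exact mul_nonneg (div_nonneg h.p0 (Nat.cast_nonneg _)) (pow_nonneg h.v0.le _)

theorem Om_pos (h : Wst ω ϑ Λ δ θ s η γ X b N β S) (m : ℕ) : 0 < WOm ω δ X m := by
  unfold WOm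
  have h2 : (0 : ℝ) < Wm X := by exact_mod_cast Pool.Agent.H361R2.PP.Wm_pos X
  exact mul_pos (div_pos h.h0 h2) (pow_pos h.v0 _)

theorem OmP_eq (h : Wst ω ϑ Λ δ θ s η γ X b N β S) (m : ℕ) :
    WOmP ω δ X m = vw ω δ X * WOm ω δ X (m + 1) := by
  have h1 := h.h0
  have h2 : (0 : ℝ) < Wm X := by exact_mod_cast Pool.Agent.H361R2.PP.Wm_pos X
  have h3 := h.v0
  have h4 := h.l0
  have h5 : (0 : ℝ) < Nat.totient (Wm X) := by
    exact_mod_cast Nat.totient_pos.mpr (Pool.Agent.H361R2.PP.Wm_pos X)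
  unfold WOmP vw vn WOm
  rw [pow_succ]
  field_simp

/-- the weights -/
noncomputable def ww (δ γ : ℝ) (X : ℕ) (β : Fin t → ℝ) (S : Fin t → Finset (Finset ℕ))
    (B : Finset ℕ) (n : ℕ) : ℝ := rU δ X B n * WW B (fun _ => 1) (xh γ β S n) ^ 2

theorem ww_nonneg (B : Finset ℕ) (n : ℕ) : 0 ≤ ww δ γ X β S B n :=
  mul_nonneg (rU_nonneg B n) (sq_nonneg _)

theorem mni_of (hMni : Mni) (h : Wst ω ϑ Λ δ θ s η γ X b N β S) {B : Finset ℕ} (hB : B.card = N) :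
    1 ≤ ZB γ β S B ∧ ∀ B' ⊆ B,
    ∑ σ ∈ cfg t B', coef β σ * term (qh γ β S) σ ≤ η * ZB γ β S B ∧
    ∑ σ ∈ cfg t B', term (qh γ β S) σ ≤ ZB γ β S B ∧
    (1 - ∑ τ, ∑ a ∈ B \ B', qh γ β S τ a) * ZB γ β S B ≤
      ∑ σ ∈ cfg t B', term (qh γ β S) σ := by
  obtain ⟨h1, -, h2⟩ := hMni t B β (qh γ β S) η h.η0 h.β0 h.β1 (fun τ a => qh_nonneg h τ a)
    (fun τ => by rw [sumq, hB]; exact h.hη τ)
  refine ⟨h1, fun B' hB' => ?_⟩
  obtain ⟨h3, -, h4, h5⟩ := h2 B' hB'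
  exact ⟨h3, h4, h5⟩

/-- total mass of the weights -/
theorem W1 (hMni : Mni) (h : Wst ω ϑ Λ δ θ s η γ X b N β S) {B : Finset ℕ} (hB : B.card = N)
    (hBs : B ⊆ Bw Λ X b) :
    ∑ n ∈ WI ω X b, ww δ γ X β S B n ≤ (1 + s) * (WOm ω δ X N * ZB γ β S B) := by
  have hγ := h.γ0
  have h1 := (h.sm B hBs hB.le B subset_rfl (fun _ => 1) (fun σ => by
    rw [abs_one]; nlinarith)).1
  rw [hB] at h1
  have hZ := (mni_of hMni h hB).1
  have h2 := (abs_le.1 h1).2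
  have h3 : ∑ σ ∈ cfg t B, (1 : ℝ) ^ 2 * term (qh γ β S) σ = ZB γ β S B := by
    unfold ZB
    refine sum_congr rfl fun σ _ => by ring
  rw [h3] at h2
  have h4 := (Om_pos h N).le
  have h5 : s * WOm ω δ X N ≤ s * (WOm ω δ X N * ZB γ β S B) := by
    apply mul_le_mul_of_nonneg_left _ h.s0
    nlinarith
  unfold ww
  linarith

/-- sums over primes -/
theorem W2 (hCol : Col) (hCob : Cob) (hMni : Mni) (h : Wst ω ϑ Λ δ θ s η γ X b N β S) {B : Finset ℕ}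
    (hB : B.card = N) (hBs : B ⊆ Bw Λ X b) {a : ℕ} (ha : a ∈ B) :
    (1 - 3 * η - s) * (vw ω δ X * (1 + γ) ^ 2 * (WOm ω δ X N * ZB γ β S B)) ≤
      ∑ n ∈ WP ω X b a, ww δ γ X β S B n ∧
    ∑ n ∈ WP ω X b a, ww δ γ X β S B n ≤
      (1 + s) * (vw ω δ X * (1 + γ) ^ 2 * (WOm ω δ X N * ZB γ β S B)) := by
  have ha1 : 1 ≤ a := mem_Bw1 (hBs ha)
  have hc := h.γ0
  have hs := h.s0
  have hcoll : ∀ n ∈ WP ω X b a, ww δ γ X β S B n =
      rU δ X (B.erase a) n * WW (B.erase a) (co1 γ β) (xh γ β S n) ^ 2 := by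
    intro n hn
    replace hn := mem_WP h hn
    unfold ww
    rw [(hCol t B β (xh γ β S n) (fun _ => γ)).1 a ha
      (fun τ => xh_prime h hn.1 ha1 hn.2.2.2 τ), rU_erase h ha hn.1 ha1 hn.2.2.2]
  rw [sum_congr rfl hcoll]
  have hcob := (hCob t β h.β0 h.β1)
  have hc0 : ∀ σ, |co1 γ β σ| ≤ (1 + γ) ^ 2 := by
    intro σ
    obtain ⟨-, h1, h2, -, -⟩ := hcob.2 γ hc σ
    rw [abs_of_nonneg h1]
    nlinarith
  have hcard : (B.erase a).card + 1 = N := by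
    rw [card_erase_of_mem ha, hB]
    have : 0 < B.card := card_pos.2 ⟨a, ha⟩
    omega
  have h3 := ((h.sm (B.erase a) ((erase_subset _ _).trans hBs) (by omega) (B.erase a) subset_rfl
    (co1 γ β) hc0).2 a (by rw [mem_sdiff]; exact ⟨hBs ha, notMem_erase a B⟩)).1
  set Ω := WOmP ω δ X (B.erase a).card with hΩ
  have hΩ0 : 0 ≤ Ω := OmP_nonneg h _
  have hΩe : Ω = vw ω δ X * WOm ω δ X N := by rw [hΩ, OmP_eq h, hcard]
  obtain ⟨hM1, hM⟩ := mni_of hMni h hB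
  obtain ⟨hm1, hm3, hm4⟩ := hM (B.erase a) (erase_subset _ _)
  set M := ZB γ β S B with hMdef
  set M' := ∑ σ ∈ cfg t (B.erase a), term (qh γ β S) σ with hM'def
  have hsd : B \ B.erase a = {a} := by
    ext x
    simp only [mem_sdiff, mem_erase, mem_singleton]
    constructor
    · rintro ⟨h1, h2⟩
      by_contra h3
      exact h2 ⟨h3, h1⟩
    · rintro rfl
      exact ⟨ha, fun h => h.1 rfl⟩
  rw [hsd] at hm4
  simp only [sum_singleton] at hm4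
  have hMq : ∑ τ, qh γ β S τ a ≤ η := h.hq
  have hη := h.η0
  have hM'1 : (1 - η) * M ≤ M' := by
    refine le_trans ?_ hm4
    apply mul_le_mul_of_nonneg_right _ (by linarith)
    linarith
  set Z' := ∑ σ ∈ cfg t (B.erase a), co1 γ β σ ^ 2 * term (qh γ β S) σ with hZ'
  -- upper and lower bounds for the main term
  have hup : Z' ≤ (1 + γ) ^ 2 * M := by
    calc Z' ≤ ∑ σ ∈ cfg t (B.erase a), (1 + γ) ^ 2 * term (qh γ β S) σ := by
          refine sum_le_sum fun σ _ => ?_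
          obtain ⟨-, h1, h2, -, -⟩ := hcob.2 γ hc σ
          apply mul_le_mul_of_nonneg_right _ (termq_nonneg h σ)
          exact pow_le_pow_left₀ h1 h2 2
      _ = (1 + γ) ^ 2 * M' := by rw [mul_sum]
      _ ≤ _ := mul_le_mul_of_nonneg_left hm3 (by positivity)
  have hlow : (1 + γ) ^ 2 * M' - 2 * γ * (1 + γ) * (η * M) ≤ Z' := by
    calc (1 + γ) ^ 2 * M' - 2 * γ * (1 + γ) * (η * M) ≤
        (1 + γ) ^ 2 * M' - 2 * γ * (1 + γ) *
          ∑ σ ∈ cfg t (B.erase a), coef β σ * term (qh γ β S) σ := by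
          have := mul_le_mul_of_nonneg_left hm1 (by positivity : 0 ≤ 2 * γ * (1 + γ))
          linarith
      _ = ∑ σ ∈ cfg t (B.erase a), ((1 + γ) ^ 2 - 2 * γ * (1 + γ) * coef β σ) *
            term (qh γ β S) σ := by
          rw [hM'def, mul_sum, mul_sum, ← sum_sub_distrib]
          refine sum_congr rfl fun σ _ => ?_
          ring
      _ ≤ _ := by
          refine sum_le_sum fun σ _ => ?_
          obtain ⟨h1, -, -, -, -⟩ := hcob.2 γ hc σ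
          exact mul_le_mul_of_nonneg_right h1 (termq_nonneg h σ)
  have hM0 : 0 ≤ M := by linarith
  have h1c : (1 : ℝ) ≤ (1 + γ) ^ 2 := by nlinarith
  have hsM : s ≤ s * ((1 + γ) ^ 2 * M) := by
    have : (1 : ℝ) ≤ (1 + γ) ^ 2 * M := by nlinarith
    nlinarith
  have h4 := abs_le.1 h3
  have hre : vw ω δ X * (1 + γ) ^ 2 * (WOm ω δ X N * M) = Ω * ((1 + γ) ^ 2 * M) := by
    rw [hΩe]; ring
  rw [hre]
  constructor
  · have h5 : (1 - 3 * η - s) * ((1 + γ) ^ 2 * M) ≤ Z' - s := by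
      have h6 : (1 + γ) ^ 2 * ((1 - η) * M) ≤ (1 + γ) ^ 2 * M' :=
        mul_le_mul_of_nonneg_left hM'1 (by positivity)
      have h7 : 2 * γ * (1 + γ) * (η * M) ≤ 2 * (1 + γ) ^ 2 * (η * M) := by
        apply mul_le_mul_of_nonneg_right _ (by positivity)
        nlinarith
      nlinarith
    have h6 := mul_le_mul_of_nonneg_left h5 hΩ0
    rw [mul_sub] at h6
    have h7 : (1 - 3 * η - s) * (Ω * ((1 + γ) ^ 2 * M)) =
      Ω * ((1 - 3 * η - s) * ((1 + γ) ^ 2 * M)) := by ring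
    rw [h7]
    linarith [h4.1]
  · have h5 : Z' + s ≤ (1 + s) * ((1 + γ) ^ 2 * M) := by nlinarith
    have h6 := mul_le_mul_of_nonneg_left h5 hΩ0
    rw [mul_add] at h6
    have h7 : (1 + s) * (Ω * ((1 + γ) ^ 2 * M)) =
      Ω * ((1 + s) * ((1 + γ) ^ 2 * M)) := by ring
    rw [h7]
    linarith [h4.2]

/-- sums over pairs of primes -/
theorem W3 (hCol : Col) (hCob : Cob) (hMni : Mni) (h : Wst ω ϑ Λ δ θ s η γ X b N β S) {B : Finset ℕ}
    (hB : B.card = N) (hBs : B ⊆ Bw Λ X b) {a a' : ℕ} (ha : a ∈ B) (ha' : a' ∈ B)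
    (hne : a ≠ a') :
    ∑ n ∈ (WP ω X b a).filter (fun n => (n + a').Prime), ww δ γ X β S B n ≤
      (1 + s) * (vw ω δ X * (1 / GG (Sp ϑ δ θ X)) * (1 + γ) ^ 4 * (WOm ω δ X N * ZB γ β S B)) := by
  have ha1 : 1 ≤ a := mem_Bw1 (hBs ha)
  have ha1' : 1 ≤ a' := mem_Bw1 (hBs ha')
  have hc := h.γ0
  have hs := h.s0
  set G := GG (Sp ϑ δ θ X) with hG
  have hG1 : 1 ≤ G := h.g1
  have hGy : ∀ y : ℝ, y ^ 2 = 1 / G ^ 2 * (G * y) ^ 2 := by
    intro y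
    have : G ≠ 0 := by linarith
    field_simp
  have hcob := (hCob t β h.β0 h.β1)
  set B' := (B.erase a).erase a' with hB'
  have hB's : B' ⊆ B := (erase_subset _ _).trans (erase_subset _ _)
  have hc0 : ∀ σ, |co2 γ γ β σ| ≤ (1 + γ) ^ 2 := by
    intro σ
    obtain ⟨-, -, -, h1, h2⟩ := hcob.2 γ hc σ
    rw [abs_of_nonneg h1]
    exact h2
  have h1 : ∑ n ∈ (WP ω X b a).filter (fun n => (n + a').Prime), ww δ γ X β S B n ≤
      1 / G ^ 2 * ∑ n ∈ WP ω X b a, rU δ X (B.erase a) n *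
        (FS (Sp ϑ δ θ X) a' n * WW B' (co2 γ γ β) (xh γ β S n)) ^ 2 := by
    rw [mul_sum]
    calc ∑ n ∈ (WP ω X b a).filter (fun n => (n + a').Prime), ww δ γ X β S B n =
        ∑ n ∈ (WP ω X b a).filter (fun n => (n + a').Prime),
          1 / G ^ 2 * (rU δ X (B.erase a) n *
            (FS (Sp ϑ δ θ X) a' n * WW B' (co2 γ γ β) (xh γ β S n)) ^ 2) := by
          refine sum_congr rfl fun n hn => ?_
          rw [mem_filter] at hn
          replace hn := And.intro (mem_WP h hn.1) hn.2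
          unfold ww
          rw [(hCol t B β (xh γ β S n) (fun _ => γ)).2 a ha a' ha' hne (fun τ =>
            ⟨xh_prime h hn.1.1 ha1 hn.1.2.2.2 τ, xh_prime h hn.1.1 ha1' hn.2 τ⟩),
            rU_erase h ha hn.1.1 ha1 hn.1.2.2.2,
            FS_prime (P2_lt hn.1.1 ha1') Sp_sub hn.2, ← hB', ← hG]
          have : G ≠ 0 := by linarith
          field_simp
      _ ≤ _ := sum_le_sum_of_subset_of_nonneg (filter_subset _ _) fun n _ _ => by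
          have := rU_nonneg (δ := δ) (X := X) (B.erase a) n
          positivity
  have hcard : (B.erase a).card + 1 = N := by
    rw [card_erase_of_mem ha, hB]
    have : 0 < B.card := card_pos.2 ⟨a, ha⟩
    omega
  have h2 := ((h.sm (B.erase a) ((erase_subset _ _).trans hBs) (by omega) B'
    (erase_subset _ _) (co2 γ γ β) hc0).2 a
      (by rw [mem_sdiff]; exact ⟨hBs ha, notMem_erase a B⟩)).2 a'
    (by
      rw [mem_sdiff]
      exact ⟨mem_erase.2 ⟨hne.symm, ha'⟩, fun h => (mem_erase.1 h).1 rfl⟩)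
  set Ω := WOmP ω δ X (B.erase a).card with hΩ
  have hΩ0 : 0 ≤ Ω := OmP_nonneg h _
  have hΩe : Ω = vw ω δ X * WOm ω δ X N := by rw [hΩ, OmP_eq h, hcard]
  obtain ⟨hM1, hM⟩ := mni_of hMni h hB
  obtain ⟨-, hm3, -⟩ := hM B' hB's
  set M := ZB γ β S B with hMdef
  set Z' := ∑ σ ∈ cfg t B', co2 γ γ β σ ^ 2 * term (qh γ β S) σ with hZ'
  have hup : Z' ≤ (1 + γ) ^ 4 * M := by
    calc Z' ≤ ∑ σ ∈ cfg t B', (1 + γ) ^ 4 * term (qh γ β S) σ := by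
          refine sum_le_sum fun σ _ => ?_
          obtain ⟨-, -, -, h1, h2⟩ := hcob.2 γ hc σ
          apply mul_le_mul_of_nonneg_right _ (termq_nonneg h σ)
          calc co2 γ γ β σ ^ 2 ≤ ((1 + γ) ^ 2) ^ 2 := pow_le_pow_left₀ h1 h2 2
            _ = (1 + γ) ^ 4 := by ring
      _ = (1 + γ) ^ 4 * ∑ σ ∈ cfg t B', term (qh γ β S) σ := by rw [mul_sum]
      _ ≤ _ := mul_le_mul_of_nonneg_left hm3 (by positivity)
  have h4 := (abs_le.1 h2).2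
  have h1c : (1 : ℝ) ≤ (1 + γ) ^ 4 := one_le_pow₀ (by linarith)
  have hM0 : 0 ≤ M := by linarith
  have hsM : s ≤ s * ((1 + γ) ^ 4 * M) := by
    have : (1 : ℝ) ≤ (1 + γ) ^ 4 * M := by nlinarith
    nlinarith
  refine h1.trans ?_
  have h5 : ∑ n ∈ WP ω X b a, rU δ X (B.erase a) n *
      (FS (Sp ϑ δ θ X) a' n * WW B' (co2 γ γ β) (xh γ β S n)) ^ 2 ≤
      Ω * G * ((1 + γ) ^ 4 * M * (1 + s)) := by
    have h6 : s * Ω ≤ Ω * G * s := by
      have h0 : 0 ≤ s * Ω := mul_nonneg hs hΩ0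
      nlinarith
    have h7 : Ω * (G * Z') ≤ Ω * G * ((1 + γ) ^ 4 * M) := by
      rw [← mul_assoc]
      exact mul_le_mul_of_nonneg_left hup (by positivity)
    have h8 : Ω * G * s ≤ Ω * G * (s * ((1 + γ) ^ 4 * M)) :=
      mul_le_mul_of_nonneg_left hsM (by positivity)
    have h9 : Ω * G * ((1 + γ) ^ 4 * M * (1 + s)) =
      Ω * G * ((1 + γ) ^ 4 * M) + Ω * G * (s * ((1 + γ) ^ 4 * M)) := by
      ring
    rw [h9]
    linarith
  calc 1 / G ^ 2 * ∑ n ∈ WP ω X b a, rU δ X (B.erase a) n *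
      (FS (Sp ϑ δ θ X) a' n * WW B' (co2 γ γ β) (xh γ β S n)) ^ 2
      ≤ 1 / G ^ 2 * (Ω * G * ((1 + γ) ^ 4 * M * (1 + s))) :=
        mul_le_mul_of_nonneg_left h5 (by positivity)
    _ = _ := by
        have : G ≠ 0 := by linarith
        rw [hΩe]
        field_simp

end

end Pool.Agent.L7h28.BP
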